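import Pool.Agent.P.MP_7cb106_nt.As.Defs

/-! Abbreviations used by the statement on asymptotic multiplicities. -/

set_option autoImplicit false

namespace Pool.Agent.P.MP_7cb106_nt.As

open IsLocalRing
open Matrix.GeneralLinearGroup (scalar)

/-- every scalar matrix acts on both representations by one and the same scalar -/
def Central {A F V W : Type} [CommRing A] [Field F] [AddCommGroup V] [Module F V] [AddCommGroup W]
    [Module F W] {n : ℕ} (ρ : Representation F (GL (Fin n) A) V)
    (a : Representation F (GL (Fin n) A) W) : Prop :=
  ∀ z : Aˣ, ∃ c : F, ρ (scalar (Fin n) z) = c • 1 ∧ a (scalar (Fin n) z) = c • 1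

/-- `M` is the multiplicity of `a` in the regular representation of `GL_n` of the residue field -/
def RegMult {A F W : Type} [CommRing A] [IsLocalRing A] [Field F] [AddCommGroup W] [Module F W]
    {n : ℕ} (a : Representation F (GL (Fin n) A) W) (M : ℕ) : Prop :=
  HasMult ((Representation.leftRegular F (GL (Fin n) (ResidueField A))).comp (red A n)) a M

/-- the number `(q - 1) / |GL_n(k)|` -/
noncomputable def dens (A : Type) [CommRing A] [IsLocalRing A] (n : ℕ) : ℝ :=
  ((Nat.card (ResidueField A) : ℝ) - 1) / Nat.card (GL (Fin n) (ResidueField A))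

/-- a lattice in an absolutely irreducible smooth representation -/
def SmoothIrr {A O U : Type} [CommRing A] [IsLocalRing A] [CommRing O] [Algebra O ℂ]
    [AddCommGroup U] [Module O U] {n : ℕ} (σ : Representation O (GL (Fin n) A) U) : Prop :=
  Level σ ∧ (extend ℂ σ).IsIrreducible

/-- a lattice with the character of an algebraic representation of dominant highest weight and
with smooth reduction -/
def Algebraic {A O J V : Type} (F : Type) [CommRing A] [IsLocalRing A] [CommRing O] [Algebra O ℂ]
    [CommRing F] [Algebra O F] [Fintype J] [AddCommGroup V] [Module O V] {n : ℕ} (φ : J → A →+* O)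
    (L : Representation O (GL (Fin n) A) V) : Prop :=
  (∃ l : J → Fin n → ℤ, (∀ j, Antitone (l j)) ∧ Weyl φ l L) ∧ Level (extend F L)

end Pool.Agent.P.MP_7cb106_nt.As
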