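import Pool.Agent.P.MP_7cb106_nt.As.Defs

/-! The two steps on the algebraic factor and on the comparison with the regular representation. -/

set_option autoImplicit false

namespace Pool.Agent.P.MP_7cb106_nt.As

open IsLocalRing Module
open Matrix.GeneralLinearGroup (scalar)

/-- the reduction of `t` is a scalar matrix -/
def Scal {A : Type} [CommRing A] [IsLocalRing A] {n : ℕ} (t : GL (Fin n) A) : Prop :=
  ∃ z : (ResidueField A)ˣ, red A n t = scalar (Fin n) z

def S_WEYL : Prop :=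
  ∀ (A O J : Type) [CommRing A] [IsLocalRing A] [CommRing O] [Algebra O ℂ] [Fintype J]
    (φ : J → A →+* O) (n N : ℕ), 0 < N → ∃ C : ℝ, 0 ≤ C ∧
    ∀ (V : Type) [AddCommGroup V] [Module O V] [Module.Free O V] [Module.Finite O V]
      (l : J → Fin n → ℤ) (ρ : Representation O (GL (Fin n) A) V), (∀ j, Antitone (l j)) →
      Weyl φ l ρ → 1 ≤ finrank O V ∧ ∀ t : GL (Fin n) A, t ^ N = 1 → ¬ Scal t →
        ‖algebraMap O ℂ (LinearMap.trace O V (ρ t))‖ ≤
          C * (finrank O V : ℝ) ^ (1 - 1 / (2 * (n : ℝ) ^ 2))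

def S_CMP : Prop :=
  ∀ (p : ℕ) [Fact p.Prime] (A O F W : Type) [CommRing A] [IsLocalRing A]
    [IsAdicComplete (maximalIdeal A) A] [Finite (ResidueField A)] [CharP (ResidueField A) p]
    [CommRing O] [Algebra O ℂ] [Field F] [Finite F] [CharP F p] [Algebra O F]
    [AddCommGroup W] [Module F W] (_ : A →+* O) (n : ℕ)
    (a : Representation F (GL (Fin n) A) W) (M : ℕ), 0 < n →
    Function.Injective (algebraMap O ℂ) →
    HasMult ((Representation.leftRegular F (GL (Fin n) (ResidueField A))).comp (red A n)) a M →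
    ∃ (N : ℕ) (B : ℝ), 0 < N ∧ ¬ p ∣ N ∧ 0 ≤ B ∧
      ∀ (V : Type) [AddCommGroup V] [Module O V] [Module.Free O V] [Module.Finite O V]
        (ρ : Representation O (GL (Fin n) A) V) (m : ℕ) (E : ℝ), Level (extend F ρ) →
        (∀ z : Aˣ, ∃ c : F, extend F ρ (scalar (Fin n) z) = c • 1 ∧
          a (scalar (Fin n) z) = c • 1) →
        HasMult (extend F ρ) a m → 0 ≤ E →
        (∀ t : GL (Fin n) A, t ^ N = 1 → ¬ Scal t →
          ‖algebraMap O ℂ (LinearMap.trace O V (ρ t))‖ ≤ E) →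
        |(m : ℝ) - (finrank O V : ℝ) * (((Nat.card (ResidueField A) : ℝ) - 1) * M /
          Nat.card (GL (Fin n) (ResidueField A)))| ≤ B * E

end Pool.Agent.P.MP_7cb106_nt.As
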