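import Pool.Agent.P.MP_7cb106_nt.As.GT
import Pool.Agent.P.MP_7cb106_nt.As.Iface

/-! The bound for the algebraic factor. -/

set_option autoImplicit false

namespace Pool.Agent.P.MP_7cb106_nt.As

open Finset Polynomial IsLocalRing Module
open Matrix.GeneralLinearGroup (scalar)

lemma root_pow {ι : Type} [Fintype ι] [DecidableEq ι] {M : Matrix ι ι ℂ} {N : ℕ} (h : M ^ N = 1)
    {μ : ℂ} (hμ : μ ∈ M.charpoly.roots) : μ ^ N = 1 := by
  have h1 := (mem_roots M.charpoly_monic.ne_zero).1 hμ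
  cases isEmpty_or_nonempty ι with
  | inl _ => simp [Matrix.charpoly] at h1
  | inr _ =>
    have h2 := spectrum.pow_mem_pow M N (Matrix.mem_spectrum_iff_isRoot_charpoly.2 h1)
    rw [h, spectrum.one_eq] at h2
    exact h2

lemma eig {n N : ℕ} (hN : 0 < N) {M : Matrix (Fin (n + 2)) (Fin (n + 2)) ℂ} (h : M ^ N = 1)
    (hM : ∀ c, M ≠ Matrix.scalar _ c) : ∃ x : Fin (n + 2) → ℂ,
      M.charpoly = ∏ i, (X - C (x i)) ∧ (∀ i, x i ^ N = 1) ∧ x 0 ≠ x 1 := by
  have e1 := (IsAlgClosed.splits M.charpoly).eq_prod_roots_of_monic M.charpoly_monic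
  have e2 : M.charpoly.roots.card = n + 2 := by
    rw [← (IsAlgClosed.splits M.charpoly).natDegree_eq_card_roots]; simp
  obtain ⟨a, ha⟩ := Multiset.card_pos_iff_exists_mem.1 (show 0 < M.charpoly.roots.card by omega)
  obtain ⟨b, hb, hab⟩ : ∃ b ∈ M.charpoly.roots, b ≠ a := by
    by_contra! hn
    rw [Multiset.eq_replicate_card.2 hn, Multiset.map_replicate, Multiset.prod_replicate] at e1
    have h1 : Squarefree (minpoly ℂ M) :=
      (separable_X_pow_sub_C (1 : ℂ) (Nat.cast_ne_zero.2 hN.ne') one_ne_zero).squarefree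
        |>.squarefree_of_dvd (minpoly.dvd ℂ M (by simp [h]))
    obtain ⟨q, hq⟩ := h1.isRadical _ _ (e1 ▸ M.minpoly_dvd_charpoly)
    have h2 := congrArg (aeval M) hq
    rw [map_mul, minpoly.aeval, zero_mul, map_sub, aeval_X, aeval_C, sub_eq_zero] at h2
    exact hM a h2
  obtain ⟨s, hs⟩ := Multiset.exists_cons_of_mem ha
  obtain ⟨u, rfl⟩ := Multiset.exists_cons_of_mem ((Multiset.mem_cons.1 (hs ▸ hb)).resolve_left hab)
  induction u using Quotient.inductionOn with
  | _ u =>
  have e3 : u.length = n := by simpa [hs] using e2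
  subst e3
  have e4 : univ.val.map (Fin.cons a (Fin.cons b u.get) : Fin (u.length + 2) → ℂ) =
      M.charpoly.roots := by
    rw [hs, Fin.univ_val_map]
    simp
  refine ⟨Fin.cons a (Fin.cons b u.get), ?_, fun i => root_pow h ?_, hab.symm⟩
  · rw [e1, ← e4, Multiset.map_map]; rfl
  · rw [← e4]; exact Multiset.mem_map_of_mem _ (mem_univ i)

lemma gap (N : ℕ) (hN : 0 < N) : ∃ K : ℝ, 0 ≤ K ∧ ∀ x y : ℂ, x ^ N = 1 → y ^ N = 1 → x ≠ y →
    1 ≤ K * ‖x - y‖ := by
  refine ⟨∑ p ∈ nthRootsFinset N (1 : ℂ) ×ˢ nthRootsFinset N (1 : ℂ), ‖p.1 - p.2‖⁻¹,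
    by positivity, fun x y hx hy h => ?_⟩
  rw [← div_le_iff₀ (norm_pos_iff.2 (sub_ne_zero.2 h)), one_div]
  exact single_le_sum (f := fun p : ℂ × ℂ => ‖p.1 - p.2‖⁻¹) (a := (x, y)) (fun _ _ => by positivity)
    (mem_product.2 ⟨(mem_nthRootsFinset hN _).2 hx, (mem_nthRootsFinset hN _).2 hy⟩)

lemma scal_of {A : Type} [CommRing A] [IsLocalRing A] {n : ℕ} {t : GL (Fin n) A}
    (h1 : ∀ i j, i ≠ j → ¬ IsUnit (t.val i j)) (h2 : ∀ i j, ¬ IsUnit (t.val i i - t.val j j)) :
    Scal t := by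
  have : red A n t ∈ (scalar (Fin n)).range := by
    rw [← Matrix.GeneralLinearGroup.center_eq_range_scalar,
      Matrix.GeneralLinearGroup.mem_center_iff_val_mem_range_scalar]
    cases n with
    | zero => exact ⟨0, Subsingleton.elim _ _⟩
    | succ n =>
      refine ⟨residue A (t.val 0 0), Matrix.ext fun i j => ?_⟩
      rw [Matrix.GeneralLinearGroup.map_apply, Matrix.scalar_apply, Matrix.diagonal_apply]
      split_ifs with e
      · rw [← sub_eq_zero, ← map_sub, e]
        exact (residue_eq_zero_iff _).2 (h2 _ _)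
      · exact ((residue_eq_zero_iff _).2 (h1 i j e)).symm
  exact this.imp fun _ h => h.symm

theorem p_WEYL : S_WEYL := by
  intro A O J _ _ _ _ _ φ n N hN
  obtain ⟨K, K0, hK⟩ := gap N hN
  refine ⟨(K * (2 * 4 ^ (n - 2))) ^ Fintype.card J, by positivity, fun V _ _ _ _ l ρ hl hw => ?_⟩
  have hd : finrank O V = ∏ j, gtd n (l j) := by
    have := hw 1 (fun _ _ => 1) fun j => by
      rw [Units.val_one, Matrix.map_one _ (by simp) (by simp), Matrix.charpoly_one]
      simp
    rw [map_one, LinearMap.trace_one, map_natCast] at this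
    simp only [schur_one] at this
    exact_mod_cast this
  refine ⟨hd ▸ one_le_prod'' fun j => gtd_pos n _ (hl j), fun t ht hs => ?_⟩
  obtain ⟨n, rfl⟩ : ∃ m, n = m + 2 := by
    by_contra hn
    have : Subsingleton (Fin n) := Fin.subsingleton_iff_le_one.2 (by
      by_contra h; exact hn ⟨n - 2, by omega⟩)
    exact hs (scal_of (fun i j h => (h (Subsingleton.elim _ _)).elim) fun i j => by
      simp [Subsingleton.elim i j])
  have hx := fun j => eig (M := t.val.map fun a => algebraMap O ℂ (φ j a)) hN (by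
    have := congrArg (fun g : GL _ A => ((algebraMap O ℂ).comp (φ j)).mapMatrix g.val) ht
    simp only [Units.val_pow_eq_pow_val, map_pow, Units.val_one, map_one] at this
    exact this) fun c hc => hs (scal_of (fun i k e u => ?_) fun i k u => ?_)
  rotate_left
  · have := congrFun (congrFun hc i) k
    rw [Matrix.scalar_apply, Matrix.diagonal_apply_ne _ e] at this
    exact ((u.map (φ j)).map (algebraMap O ℂ)).ne_zero this
  · have h1 := congrFun (congrFun hc i) i
    have h2 := congrFun (congrFun hc k) k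
    rw [Matrix.scalar_apply, Matrix.diagonal_apply_eq, Matrix.map_apply] at h1 h2
    exact ((u.map (φ j)).map (algebraMap O ℂ)).ne_zero (by rw [map_sub, map_sub, h1, h2, sub_self])
  choose x x1 x2 x3 using hx
  rw [hw t x x1, norm_prod, hd, Nat.cast_prod, ← Real.finsetProd_rpow _ _ fun _ _ => by positivity,
    ← card_univ, ← prod_const, ← prod_mul_distrib]
  refine prod_le_prod (fun _ _ => norm_nonneg _) fun j _ => ?_
  have h1 := schur_bound (l j) (x j) (hl j) fun i =>
    Complex.norm_eq_one_of_pow_eq_one (x2 j i) hN.ne'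
  have h2 := mul_le_mul_of_nonneg_right (hK _ _ (x2 j 0) (x2 j 1) (x3 j))
    (norm_nonneg (schur (n + 2) (l j) (x j)))
  rw [one_mul, mul_assoc] at h2
  rw [mul_assoc, Nat.add_sub_cancel]
  exact h2.trans (mul_le_mul_of_nonneg_left h1 K0)

end Pool.Agent.P.MP_7cb106_nt.As
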