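import Pool.Agent.P.MP_7cb106_nt.As.Old
import Pool.Agent.P.MP_7cb106_nt.As.Wey

/-! Jordan-Hoelder multiplicities are a fixed linear form in traces. -/

set_option autoImplicit false

namespace Pool.Agent.P.MP_7cb106_nt.As

open Finset Polynomial Module
open Pool.Agent.P.MP_7cb106_nt.T (cp)

lemma lin {I : Type} [Fintype I] (P : (I → ℕ) → ℕ → Prop) (h0 : P 0 0)
    (h1 : ∀ m M m' M', P m M → P m' M' → P (m + m') (M + M'))
    (h2 : ∀ m M M', P m M → P m M' → M = M') :
    ∃ c : I → ℚ, ∀ m M, P m M → (M : ℚ) = ∑ i, c i * m i := by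
  classical
  let e : (I → ℕ) → ℕ → (I → ℚ) × ℚ := fun m M => (fun i => m i, M)
  have ea : ∀ m M m' M', e (m + m') (M + M') = e m M + e m' M' := fun _ _ _ _ => by
    ext <;> simp [e]
  let D : AddSubgroup ((I → ℚ) × ℚ) :=
    { carrier := {x | ∃ m M m' M', P m M ∧ P m' M' ∧ x = e m M - e m' M'}
      zero_mem' := ⟨0, 0, 0, 0, h0, h0, by simp⟩
      add_mem' := by
        rintro _ _ ⟨m, M, m', M', a, b, rfl⟩ ⟨k, K, k', K', c, d, rfl⟩
        exact ⟨_, _, _, _, h1 _ _ _ _ a c, h1 _ _ _ _ b d, by rw [ea, ea]; abel⟩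
      neg_mem' := by
        rintro _ ⟨m, M, m', M', a, b, rfl⟩
        exact ⟨_, _, _, _, b, a, by abel⟩ }
  let p : Submodule ℚ ((I → ℚ) × ℚ) :=
    { carrier := {x | ∃ k : ℕ, 0 < k ∧ k • x ∈ D}
      zero_mem' := ⟨1, one_pos, by simp⟩
      add_mem' := by
        rintro x y ⟨k, k0, hk⟩ ⟨l, l0, hl⟩
        refine ⟨k * l, by positivity, ?_⟩
        rw [smul_add, mul_smul k l y, mul_comm k, mul_smul l]
        exact D.add_mem (D.nsmul_mem hk l) (D.nsmul_mem hl k)
      smul_mem' := by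
        rintro r x ⟨k, k0, hk⟩
        refine ⟨k * r.den, mul_pos k0 r.den_pos, ?_⟩
        convert D.zsmul_mem hk r.num using 1
        rw [← Int.cast_smul_eq_zsmul ℚ, ← Nat.cast_smul_eq_nsmul ℚ, ← Nat.cast_smul_eq_nsmul ℚ,
          smul_smul, smul_smul, ← r.mul_den_eq_num]
        congr 1
        push_cast
        ring }
  obtain ⟨f, f1, f2⟩ := p.exists_le_ker_of_notMem (v := (0, 1)) (by
    rintro ⟨k, k0, m, M, m', M', a, b, h⟩
    have e1 : m = m' := funext fun i => by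
      have := congrFun (congrArg Prod.fst h) i
      simp only [e, Prod.smul_fst, smul_zero, Pi.zero_apply, Prod.fst_sub, Pi.sub_apply] at this
      exact_mod_cast sub_eq_zero.1 this.symm
    subst e1
    have := congrArg Prod.snd h
    simp [h2 _ _ _ a b] at this
    omega)
  refine ⟨fun i => -f (Pi.single i 1, 0) / f (0, 1), fun m M h => ?_⟩
  have e1 : f (e m M) = 0 := f2 ⟨1, one_pos, m, M, 0, 0, h, h0, by ext <;> simp [e]⟩
  have e2 : e m M = ∑ i, (m i : ℚ) • ((Pi.single i 1 : I → ℚ), (0 : ℚ)) + (M : ℚ) • (0, 1) := by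
    ext i
    · simp [e, Prod.fst_sum, Pi.single_apply]
    · simp [e, Prod.snd_sum]
  rw [e2, map_add, map_sum, map_smul] at e1
  simp only [map_smul, smul_eq_mul] at e1
  simp only [div_mul_eq_mul_div, ← sum_div, neg_mul, sum_neg_distrib, mul_comm (f _)]
  rw [eq_div_iff f1]
  linarith

lemma geo {N : ℕ} {x : ℂ} (h : x ^ N = 1) :
    ∑ i ∈ range N, x ^ i = if x = 1 then (N : ℂ) else 0 := by
  split_ifs with e
  · simp [e]
  · rw [geom_sum_eq e, h, sub_self, zero_div]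

lemma four {N : ℕ} {y : ℂ} (hy : y ^ N = 1) (y0 : y ≠ 0) (s : Multiset ℂ)
    (hs : ∀ r ∈ s, r ^ N = 1) :
    ∑ i ∈ range N, y⁻¹ ^ i * (s.map (· ^ i)).sum = N * (s.count y : ℂ) := by
  induction s using Multiset.induction_on with
  | empty => simp
  | cons r s ih =>
    have h1 : (y⁻¹ * r) ^ N = 1 := by
      rw [mul_pow, inv_pow, hy, hs r (Multiset.mem_cons_self _ _), inv_one, one_mul]
    simp only [Multiset.map_cons, Multiset.sum_cons, mul_add, sum_add_distrib, ← mul_pow, geo h1,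
      ih fun r hr => hs r (Multiset.mem_cons_of_mem hr), Multiset.count_cons, Nat.cast_add,
      inv_mul_eq_one₀ y0]
    split_ifs <;> simp [add_comm]

lemma tr_pow {ι : Type} [Fintype ι] [DecidableEq ι] (B : Matrix ι ι ℂ) (i : ℕ) :
    (B ^ i).trace = (B.charpoly.roots.map (· ^ i)).sum := by
  have h := Old.all_POW ℂ (ι → ℂ) (Matrix.toLin' B) i
  rwa [← Matrix.toLin'_pow, Matrix.trace_toLin'_eq, Matrix.charpoly_toLin'] at h

lemma cp_count {ι : Type} [Fintype ι] [DecidableEq ι] {B : Matrix ι ι ℂ} {N : ℕ} [NeZero N]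
    (h : B ^ N = 1) {ζ : ℂ} (hζ : IsPrimitiveRoot ζ N) :
    B.charpoly = ∏ j : Fin N, (X - C (ζ ^ j.1)) ^ B.charpoly.roots.count (ζ ^ j.1) := by
  conv_lhs => rw [(IsAlgClosed.splits B.charpoly).eq_prod_roots_of_monic B.charpoly_monic,
    prod_multiset_map_count]
  rw [← prod_image (s := univ) (g := fun j : Fin N => ζ ^ j.1)
    (f := fun r => (X - C r) ^ B.charpoly.roots.count r)
    fun i _ j _ e => Fin.ext (hζ.pow_inj i.2 j.2 e)]
  refine prod_subset (fun r hr => ?_) fun r _ hr => ?_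
  · obtain ⟨i, hi, rfl⟩ := hζ.eq_pow_of_pow_eq_one (root_pow h (Multiset.mem_toFinset.1 hr))
    exact mem_image.2 ⟨⟨i, hi⟩, mem_univ _, rfl⟩
  · rw [Multiset.count_eq_zero.2 fun k => hr (Multiset.mem_toFinset.2 k), pow_zero]

variable {O F H W : Type} [CommRing O] [Algebra O ℂ] [Field F] [Algebra O F] [Group H]
  [AddCommGroup W] [Module F W]

theorem func [Finite F] {Γ : Type} [Fintype Γ] (hO : Function.Injective (algebraMap O ℂ))
    (a : Representation F H W) {N : ℕ} (hN : 0 < N) (t : Γ → H) (ht : ∀ γ, t γ ^ N = 1)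
    (κ : H → Γ) : ∃ c : Γ → ℕ → ℂ, ∀ (ι : Type) [Fintype ι] [DecidableEq ι]
      (ρ : H →* Matrix ι ι O) (V : Type) [AddCommGroup V] [Module F V] [FiniteDimensional F V]
      (σ : Representation F H V) (M : ℕ),
      (∀ g, (σ g).charpoly = (ρ (t (κ g))).charpoly.map (algebraMap O F)) → HasMult σ a M →
      (M : ℂ) = ∑ γ, ∑ i ∈ range N, c γ i * algebraMap O ℂ (ρ (t γ ^ i)).trace := by
  have : NeZero N := ⟨hN.ne'⟩
  obtain ⟨ζ, hζ⟩ : ∃ ζ : ℂ, IsPrimitiveRoot ζ N := ⟨_, Complex.isPrimitiveRoot_exp N hN.ne'⟩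
  let R := MonoidAlgebra F H
  obtain ⟨c, hc⟩ := lin (I := Γ × Fin N) (fun m M => ∃ (ι : Type) (_ : Fintype ι)
    (J : ι → Submodule R R) (_ : ∀ i, FiniteDimensional F (R ⧸ J i)) (Q : Γ → O[X]),
      (∀ i, IsSimpleModule R (R ⧸ J i)) ∧
      (∀ γ, (Q γ).map (algebraMap O ℂ) = ∏ j : Fin N, (X - C (ζ ^ j.1)) ^ m (γ, j)) ∧
      (∀ g, ∏ i, cp F (R ⧸ J i) (MonoidAlgebra.single g (1 : F)) =
        (Q (κ g)).map (algebraMap O F)) ∧
      M = Nat.card {i // Nonempty ((R ⧸ J i) ≃ₗ[R] a.asModule)})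
    ⟨Empty, inferInstance, Empty.elim, fun i => i.elim, 1, fun i => i.elim, by simp, by simp,
      by simp⟩
    (by
      rintro m _ m' _ ⟨ι, _, J, fJ, Q, a1, a2, a3, rfl⟩ ⟨ι', _, J', fJ', Q', b1, b2, b3, rfl⟩
      refine ⟨ι ⊕ ι', inferInstance, Sum.elim J J', fun i => i.rec fJ fJ', Q * Q',
        fun i => i.rec a1 b1, fun γ => ?_, fun g => ?_, ?_⟩
      · simp only [Pi.mul_apply, Polynomial.map_mul, a2, b2, Pi.add_apply, pow_add,
          prod_mul_distrib]
      · rw [Pi.mul_apply, Polynomial.map_mul, ← a3, ← b3, Fintype.prod_sum_type]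
        rfl
      · rw [Nat.card_congr Equiv.subtypeSum, Nat.card_sum]
        rfl)
    (by
      rintro m _ _ ⟨ι, _, J, fJ, Q, a1, a2, a3, rfl⟩ ⟨ι', _, J', fJ', Q', b1, b2, b3, rfl⟩
      have e : Q = Q' := funext fun γ => map_injective _ hO ((a2 γ).trans (b2 γ).symm)
      have := Old.all_BN F R (Set.range fun g : H => MonoidAlgebra.single g (1 : F)) ?_
        _ _ J J' 1 1 a1 b1 ?_ a.asModule
      · simpa using this
      · refine Submodule.eq_top_iff'.2 fun x => ?_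
        induction x using MonoidAlgebra.induction_on with
        | of g => exact Submodule.subset_span ⟨g, rfl⟩
        | add x y hx hy => exact add_mem hx hy
        | smul r x hx => exact Submodule.smul_mem _ r hx
      · rintro _ ⟨g, rfl⟩
        rw [a3, b3, e])
  refine ⟨fun γ i => ∑ j : Fin N, c (γ, j) * (ζ ^ j.1)⁻¹ ^ i / N,
    fun ι _ _ ρ V _ _ _ σ M h ⟨s, s0, s1, hs⟩ => ?_⟩
  obtain ⟨J, fJ, J1, J2, J3⟩ := Old.jh_fac Old.all_SER F s s0 s1
  let B : Γ → Matrix ι ι ℂ := fun γ => (algebraMap O ℂ).mapMatrix (ρ (t γ))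
  have hB : ∀ γ, B γ ^ N = 1 := fun γ => by rw [← map_pow, ← map_pow, ht, map_one, map_one]
  have h1 := hc (fun q => (B q.1).charpoly.roots.count (ζ ^ q.2.1)) M ⟨_, inferInstance, J, fJ,
    fun γ => (ρ (t γ)).charpoly, J1, fun γ => by
      rw [← Matrix.charpoly_map]; exact cp_count (hB γ) hζ,
    fun g => by rw [← J2, Old.jh_rep, h], by rw [← hs, J3]⟩
  have h2 := congrArg (Rat.cast : ℚ → ℂ) h1
  push_cast at h2
  rw [h2, Fintype.sum_prod_type]
  refine sum_congr rfl fun γ _ => ?_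
  simp only [sum_mul]
  rw [sum_comm]
  refine sum_congr rfl fun j _ => ?_
  have h3 := four (y := ζ ^ j.1) (by rw [← pow_mul, mul_comm, pow_mul, hζ.pow_eq_one, one_pow])
    (pow_ne_zero _ (hζ.ne_zero hN.ne')) _ fun r hr => root_pow (hB γ) hr
  have h4 : ∀ i, algebraMap O ℂ (ρ (t γ ^ i)).trace = (B γ ^ i).trace := fun i => by
    rw [← map_pow, ← map_pow, AddMonoidHom.map_trace]; rfl
  have h5 : (N : ℂ) ≠ 0 := Nat.cast_ne_zero.2 hN.ne'
  simp only [h4, tr_pow, div_mul_eq_mul_div, mul_assoc, ← sum_div, ← mul_sum, h3]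
  field_simp

lemma exm {V : Type} [AddCommGroup V] [Module F V] [FiniteDimensional F V]
    (σ : Representation F H V) (a : Representation F H W) : ∃ M, HasMult σ a M := by
  have : IsNoetherian (MonoidAlgebra F H) σ.asModule := isNoetherian_of_tower F inferInstance
  have : IsArtinian (MonoidAlgebra F H) σ.asModule := isArtinian_of_tower F inferInstance
  obtain ⟨s, s0, s1⟩ := exists_compositionSeries_of_isNoetherian_isArtinian
    (MonoidAlgebra F H) σ.asModule
  exact ⟨_, s, s0, s1, rfl⟩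

lemma cen0 {V : Type} [AddCommGroup V] [Module F V] {σ : Representation F H V}
    {a : Representation F H W} {M : ℕ} (h : HasMult σ a M) {z : H} {c c' : F}
    (h1 : σ z = c • 1) (h2 : a z = c' • 1) (hc : c ≠ c') : M = 0 := by
  obtain ⟨s, -, -, rfl⟩ := h
  refine Nat.card_eq_zero.2 (Or.inl ⟨fun ⟨i, ⟨e⟩⟩ => ?_⟩)
  have : IsSimpleModule (MonoidAlgebra F H)
      (↥(s i.succ) ⧸ (s i.castSucc).submoduleOf (s i.succ)) :=
    (covBy_iff_quot_is_simple (CovBy.le (s.step i))).1 (s.step i)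
  have := IsSimpleModule.nontrivial (MonoidAlgebra F H)
    (↥(s i.succ) ⧸ (s i.castSucc).submoduleOf (s i.succ))
  obtain ⟨x, hx⟩ := exists_ne (0 : ↥(s i.succ) ⧸ (s i.castSucc).submoduleOf (s i.succ))
  have e1 : MonoidAlgebra.single z (1 : F) • x = algebraMap F (MonoidAlgebra F H) c • x := by
    obtain ⟨x, rfl⟩ := Submodule.Quotient.mk_surjective _ x
    rw [← Submodule.Quotient.mk_smul, ← Submodule.Quotient.mk_smul]
    congr 1
    refine Subtype.ext (σ.asModuleEquiv.injective ?_)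
    simp [h1]
  have e2 : MonoidAlgebra.single z (1 : F) • e x = algebraMap F (MonoidAlgebra F H) c' • e x := by
    refine a.asModuleEquiv.injective ?_
    simp [h2]
  rw [← map_smul, ← map_smul, e.injective.eq_iff, e1, algebraMap_smul, algebraMap_smul] at e2
  exact hc (smul_left_injective F hx e2)

end Pool.Agent.P.MP_7cb106_nt.As
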