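import Pool.Agent.P.MP_7cb106_nt.As.Iface

/-! Elements of finite order prime to the residue characteristic. -/

set_option autoImplicit false

namespace Pool.Agent.P.MP_7cb106_nt.As

open Finset Polynomial IsLocalRing Module
open Matrix.GeneralLinearGroup (scalar)

variable {A : Type} [CommRing A] [IsLocalRing A] {n : ℕ}

/-- reduction modulo a power of the maximal ideal -/
noncomputable abbrev rd (A : Type) [CommRing A] [IsLocalRing A] (n m : ℕ) :
    GL (Fin n) A →* GL (Fin n) (A ⧸ maximalIdeal A ^ m) :=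
  Matrix.GeneralLinearGroup.map (Ideal.Quotient.mk _)

lemma rd_eq {m : ℕ} {g h : GL (Fin n) A} :
    rd A n m g = rd A n m h ↔ ∀ i j, (g.val - h.val) i j ∈ maximalIdeal A ^ m := by
  simp only [Units.ext_iff, ← Matrix.ext_iff, Matrix.GeneralLinearGroup.map_apply,
    Ideal.Quotient.eq, Matrix.sub_apply]

lemma rd_one {m : ℕ} {g : GL (Fin n) A} :
    rd A n m g = 1 ↔ ∀ i j, (g.val - 1) i j ∈ maximalIdeal A ^ m := by
  rw [← map_one (rd A n m), rd_eq, Units.val_one]

lemma red_eq {g h : GL (Fin n) A} : red A n g = red A n h ↔ rd A n 1 g = rd A n 1 h := by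
  rw [rd_eq, pow_one]
  simp only [Units.ext_iff, ← Matrix.ext_iff, Matrix.GeneralLinearGroup.map_apply,
    Matrix.sub_apply, ← residue_eq_zero_iff, map_sub, sub_eq_zero]

lemma red_val (g : GL (Fin n) A) : (red A n g).val = (residue A).mapMatrix g.val := rfl

lemma conj_of {N : ℕ} (hN : (N : ResidueField A) ≠ 0) {t s : GL (Fin n) A} (ht : t ^ N = 1)
    (hs : s ^ N = 1) (h : red A n t = red A n s) : IsConj s t := by
  let f : ℕ → Matrix (Fin n) (Fin n) A := fun i => (t ^ i * s⁻¹ ^ i).val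
  have h1 : (residue A).mapMatrix (∑ i ∈ range N, f i) = (N : ResidueField A) • 1 := by
    rw [map_sum, sum_congr rfl (g := fun _ => 1) fun i _ => by
      rw [← red_val, map_mul, map_pow, map_pow, map_inv, h, inv_pow, mul_inv_cancel, Units.val_one]]
    simp [Nat.cast_smul_eq_nsmul]
  have h2 : IsUnit (∑ i ∈ range N, f i) := by
    rw [Matrix.isUnit_iff_isUnit_det, ← isUnit_map_iff (residue A), RingHom.map_det, h1]
    simp [hN]
  have h3 : t.val * (∑ i ∈ range N, f i) * s⁻¹.val = ∑ i ∈ range N, f i := by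
    have e : ∀ i, t.val * f i * s⁻¹.val = f (i + 1) := fun i => by
      simp only [f, ← Units.val_mul]
      rw [pow_succ' t, pow_succ s⁻¹]
      simp only [mul_assoc]
    have e2 := (sum_range_succ' f N).symm.trans (sum_range_succ f N)
    have e3 : f N = f 0 := by simp only [f, inv_pow, ht, hs, pow_zero]
    rw [mul_sum, sum_mul, sum_congr rfl fun i _ => e i]
    exact add_right_cancel (e2.trans (by rw [e3]))
  obtain ⟨u, hu⟩ := h2
  refine isConj_iff.2 ⟨u, ?_⟩
  have h4 : t * u * s⁻¹ = u := Units.ext (by rw [Units.val_mul, Units.val_mul, hu, h3])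
  calc u * s * u⁻¹ = t * u * s⁻¹ * s * u⁻¹ := by rw [h4]
    _ = t := by group

lemma up {Q : ℕ} (hQ : (Q : ResidueField A) = 0) {u : GL (Fin n) A} (hu : red A n u = 1) (e : ℕ) :
    rd A n (e + 1) (u ^ Q ^ e) = 1 := by
  induction e with
  | zero => exact (red_eq.1 (by simp [hu])).trans (map_one _)
  | succ e ih =>
    have h1 : (residue A).mapMatrix (∑ i ∈ range Q, (u ^ Q ^ e).val ^ i) = 0 := by
      rw [map_sum, sum_congr rfl (g := fun _ => 1) fun i _ => by
        rw [map_pow, ← red_val, map_pow, hu, one_pow, Units.val_one, one_pow]]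
      simp [← Nat.cast_smul_eq_nsmul (ResidueField A), hQ]
    rw [rd_one] at ih ⊢
    intro i j
    rw [pow_succ Q, pow_mul, Units.val_pow_eq_pow_val, ← mul_geom_sum, Matrix.mul_apply, pow_succ]
    exact Ideal.sum_mem _ fun k _ => Ideal.mul_mem_mul (ih i k)
      ((residue_eq_zero_iff _).1 (congrFun (congrFun h1 k) j))

lemma rd_le {m m' : ℕ} (h : m ≤ m') {g g' : GL (Fin n) A} (e : rd A n m' g = rd A n m' g') :
    rd A n m g = rd A n m g' :=
  rd_eq.2 fun i j => Ideal.pow_le_pow_right h (rd_eq.1 e i j)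

variable [IsAdicComplete (maximalIdeal A) A]

lemma lift {Q N : ℕ} (hQ : (Q : ResidueField A) = 0) (hN : 0 < N) (hd : Q ≡ 1 [MOD N])
    (hQ0 : 0 < Q) {g : GL (Fin n) A} (hg : red A n g ^ N = 1) :
    ∃ t : GL (Fin n) A, t ^ N = 1 ∧ ∀ e, rd A n e t = rd A n e (g ^ Q ^ e) := by
  obtain ⟨c, hc⟩ := (Nat.modEq_iff_dvd' hQ0).1 hd.symm
  have h1 : ∀ e, rd A n e (g ^ Q ^ e) = rd A n e (g ^ Q ^ (e + 1)) := fun e => by
    have e1 : g ^ Q ^ (e + 1) = g ^ Q ^ e * (g ^ (N * c)) ^ Q ^ e := by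
      rw [← pow_mul, ← pow_add, ← hc, pow_succ]
      congr 1
      obtain ⟨Q, rfl⟩ : ∃ q, Q = q + 1 := ⟨Q - 1, by omega⟩
      rw [Nat.add_sub_cancel]; ring
    have e2 := rd_le e.le_succ ((up hQ (u := g ^ (N * c))
      (by rw [map_pow, pow_mul, hg, one_pow]) e).trans (map_one _).symm)
    rw [e1, map_mul, e2, map_one, mul_one]
  have h2 : ∀ e e', e ≤ e' → rd A n e (g ^ Q ^ e) = rd A n e (g ^ Q ^ e') := fun e e' h => by
    induction e', h using Nat.le_induction with
    | base => rfl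
    | succ e' h ih => exact ih.trans (rd_le h (h1 e'))
  have sm : ∀ (e : ℕ) (x y : A), x ≡ y [SMOD (maximalIdeal A ^ e • ⊤ : Submodule A A)] ↔
      x - y ∈ maximalIdeal A ^ e := fun e x y => by
    rw [SModEq.sub_mem, smul_eq_mul, Ideal.mul_top]
  choose T hT using fun i j => IsPrecomplete.prec (I := maximalIdeal A) inferInstance
    (f := fun e => (g ^ Q ^ e).val i j) fun {e e'} h => (sm _ _ _).2 (rd_eq.1 (h2 e e' h) i j)
  have h3 : ∀ e, (Ideal.Quotient.mk (maximalIdeal A ^ e)).mapMatrix (Matrix.of T) =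
      (rd A n e (g ^ Q ^ e)).val := fun e => Matrix.ext fun i j =>
    (Ideal.Quotient.eq.2 ((sm _ _ _).1 (hT i j e))).symm
  have h4 : Matrix.of T ^ N = 1 := Matrix.ext fun i j =>
    (IsHausdorff.eq_iff_smodEq (I := maximalIdeal A)).2 fun e => (sm _ _ _).2 <| by
      have e1 := rd_le e.le_succ ((up hQ (u := g ^ N) (by rw [map_pow, hg]) e).trans
        (map_one _).symm)
      have e2 : (Ideal.Quotient.mk (maximalIdeal A ^ e)).mapMatrix (Matrix.of T ^ N) =
          (Ideal.Quotient.mk (maximalIdeal A ^ e)).mapMatrix 1 := by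
        rw [map_pow, h3, ← Units.val_pow_eq_pow_val, ← map_pow, ← pow_mul, mul_comm, pow_mul, e1,
          map_one, map_one, Units.val_one]
      exact Ideal.Quotient.eq.1 (congrFun (congrFun e2 i) j)
  exact ⟨Units.ofPowEqOne _ N h4 hN.ne', Units.pow_ofPowEqOne h4 hN.ne', fun e => Units.ext (h3 e)⟩

theorem pcp (p : ℕ) [Fact p.Prime] [Finite (ResidueField A)] [CharP (ResidueField A) p]
    (F : Type) [Field F] [Finite F] [CharP F p] (n : ℕ) :
    ∃ (N : ℕ) (t : GL (Fin n) (ResidueField A) → GL (Fin n) A), 0 < N ∧ ¬ p ∣ N ∧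
      (∀ γ, t γ ^ N = 1) ∧ ∀ (ι : Type) [Fintype ι] [DecidableEq ι]
        (ρ : GL (Fin n) A →* Matrix ι ι F) (m : ℕ), (∀ g, rd A n m g = 1 → ρ g = 1) →
        ∀ g, (ρ g).charpoly = (ρ (t (red A n g))).charpoly := by
  have pp : p.Prime := Fact.out
  have := Fintype.ofFinite F
  obtain ⟨a, N, hN, hc⟩ := Nat.exists_eq_pow_mul_and_not_dvd
    (Nat.card_pos (α := GL (Fin n) (ResidueField A))).ne' p pp.ne_one
  have N0 : 0 < N := Nat.pos_of_ne_zero fun h => hN (h ▸ dvd_zero p)
  obtain ⟨f, -, hf⟩ := FiniteField.card F p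
  have pq : p ∣ Fintype.card F := hf ▸ dvd_pow_self p f.ne_zero
  have c0 : a + 1 ≤ N.totient * (a + 1) := Nat.le_mul_of_pos_left _ (Nat.totient_pos.2 N0)
  set c := N.totient * (a + 1) with hc'
  have hd : Fintype.card F ^ c ≡ 1 [MOD N] := by
    have := (Nat.ModEq.pow_totient (x := Fintype.card F) (n := N)
      (hf ▸ ((Nat.Prime.coprime_iff_not_dvd pp).2 hN).pow_left _)).pow (a + 1)
    rwa [one_pow, ← pow_mul] at this
  have hQ : ((Fintype.card F ^ c : ℕ) : ResidueField A) = 0 :=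
    (CharP.cast_eq_zero_iff _ p _).2 (pq.trans (dvd_pow_self _ (by omega)))
  choose T T1 T2 using fun g : GL (Fin n) A => lift hQ N0 hd (by positivity)
    (g := g ^ Fintype.card F ^ c) (by
      rw [map_pow, ← pow_mul, ← orderOf_dvd_iff_pow_eq_one]
      refine (orderOf_dvd_natCard _).trans (hc ▸ Nat.mul_dvd_mul_right ?_ N)
      exact (pow_dvd_pow_of_dvd pq a).trans (pow_dvd_pow _ (by omega)))
  refine ⟨N, fun γ => T (Function.invFun (red A n) γ), N0, hN, fun γ => T1 _,
    fun ι _ _ ρ m hρ g => ?_⟩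
  have h1 : ∀ (M : Matrix ι ι F) (k : ℕ), (M ^ Fintype.card F ^ k).charpoly = M.charpoly :=
    fun M k => by
      induction k with
      | zero => simp
      | succ k ih => rw [pow_succ, pow_mul, FiniteField.Matrix.charpoly_pow_card, ih]
  have h2 : ρ (T g) = ρ g ^ Fintype.card F ^ (c + c * m) := by
    rw [pow_add, pow_mul _ c m, pow_mul, ← map_pow, ← map_pow, ← mul_one (ρ (_ ^ _)),
      ← hρ (((g ^ Fintype.card F ^ c) ^ (Fintype.card F ^ c) ^ m)⁻¹ * T g)
        (by rw [map_mul, map_inv, T2, inv_mul_cancel]), ← map_mul, mul_inv_cancel_left]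
  have h3 : ∀ g, red A n (T g) =
      (red A n g ^ Fintype.card F ^ c) ^ (Fintype.card F ^ c) ^ 1 := fun g => by
    rw [← map_pow, ← map_pow, red_eq, T2]
  obtain ⟨u, hu⟩ := isConj_iff.1 (conj_of (fun h => hN ((CharP.cast_eq_zero_iff _ p _).1 h))
    (T1 (Function.invFun (red A n) (red A n g))) (T1 g)
    (by rw [h3, h3, Function.invFun_eq (f := red A n) ⟨g, rfl⟩]))
  dsimp only
  rw [← hu, map_mul, Matrix.charpoly_mul_comm, ← map_mul, inv_mul_cancel_left, h2, h1]

theorem tei [Finite (ResidueField A)] : ∃ τ : (ResidueField A)ˣ →* Aˣ,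
    ∀ z, Units.map (residue A : A →* ResidueField A) (τ z) = z := by
  have := Fintype.ofFinite (ResidueField A)
  obtain ⟨z, hz⟩ := IsCyclic.exists_generator (α := (ResidueField A)ˣ)
  obtain ⟨a, ha⟩ := residue_surjective (R := A) z
  have e0 : 0 < orderOf z := orderOf_pos z
  have e1 : ((orderOf z : ℕ) : ResidueField A) ≠ 0 := by
    rw [orderOf_eq_card_of_forall_mem_zpowers hz, Nat.card_units,
      Nat.cast_sub (Nat.card_pos), Nat.card_eq_fintype_card, FiniteField.cast_card_eq_zero]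
    simp
  obtain ⟨b, b1, b2⟩ := HenselianRing.is_henselian (I := maximalIdeal A) (X ^ orderOf z - C 1)
    (monic_X_pow_sub_C _ e0.ne') a (by
      rw [← residue_eq_zero_iff]
      simp [ha, ← Units.val_pow_eq_pow_val]) (by
      refine (isUnit_iff_ne_zero (G₀ := ResidueField A)).2 ?_
      change residue A _ ≠ 0
      rw [derivative_sub, derivative_C, sub_zero, derivative_X_pow, eval_mul, eval_C, eval_pow,
        eval_X, map_mul, map_pow, ha, map_natCast]
      exact mul_ne_zero e1 (pow_ne_zero _ z.ne_zero))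
  have b3 : b ^ orderOf z = 1 := by simpa [sub_eq_zero] using b1
  have b4 := orderOf_dvd_of_pow_eq_one (Units.pow_ofPowEqOne b3 e0.ne')
  refine ⟨monoidHomOfForallMemZpowers hz b4, fun w => ?_⟩
  have := (MonoidHom.eq_iff_eq_on_generator hz ((Units.map (residue A : A →* ResidueField A)).comp
    (monoidHomOfForallMemZpowers hz b4)) (MonoidHom.id _)).2 (Units.ext (by
      rw [← residue_eq_zero_iff, map_sub, sub_eq_zero, ha] at b2
      simpa using b2))
  exact DFunLike.congr_fun this w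

end Pool.Agent.P.MP_7cb106_nt.As
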