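import Pool.Agent.P.MP_7cb106_nt.As.Mono
import Pool.Agent.P.MP_7cb106_nt.As.Lift

/-! Comparison with the regular representation. -/

set_option autoImplicit false

namespace Pool.Agent.P.MP_7cb106_nt.As

open Finset Polynomial IsLocalRing Module
open Matrix.GeneralLinearGroup (scalar)
open scoped Classical

lemma scalar_inj {k : Type} [Field k] {n : ℕ} (hn : 0 < n) :
    Function.Injective (scalar (Fin n) : kˣ →* GL (Fin n) k) := fun a b h => by
  have := congrArg (fun g : GL (Fin n) k => g.val ⟨0, hn⟩ ⟨0, hn⟩) h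
  exact Units.ext (by simpa using this)

lemma rd_red {A : Type} [CommRing A] [IsLocalRing A] {n : ℕ} {g : GL (Fin n) A}
    (h : rd A n 1 g = 1) : red A n g = 1 :=
  (red_eq.2 (h.trans (map_one _).symm)).trans (map_one _)

theorem p_CMP : S_CMP := by
  intro p _ A O F W _ _ _ _ _ _ _ _ _ _ _ _ _ φ n a M hn hO hM
  have := (algebraMap O ℂ).domain_nontrivial
  have := Fintype.ofFinite (GL (Fin n) (ResidueField A))
  obtain ⟨N, t, N0, hN, ht, hp⟩ := pcp (A := A) p F n
  obtain ⟨τ, hτ⟩ := tei (A := A)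
  obtain ⟨c, hc⟩ := func (O := O) hO a N0 t ht (red A n)
  have hc' : ∀ (ι : Type) [Fintype ι] [DecidableEq ι] (ρ : GL (Fin n) A →* Matrix ι ι O)
      (V : Type) [AddCommGroup V] [Module F V] [FiniteDimensional F V]
      (σ : Representation F (GL (Fin n) A) V) (M m : ℕ),
      (∀ g, rd A n m g = 1 → (algebraMap O F).mapMatrix (ρ g) = 1) →
      (∀ g, (σ g).charpoly = (ρ g).charpoly.map (algebraMap O F)) → HasMult σ a M →
      (M : ℂ) = ∑ γ, ∑ i ∈ range N, c γ i * algebraMap O ℂ (ρ (t γ ^ i)).trace :=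
    fun ι _ _ ρ V _ _ _ σ M m h1 h2 => hc ι ρ V σ M fun g => by
      rw [h2, ← Matrix.charpoly_map, ← Matrix.charpoly_map]
      exact hp ι ((algebraMap O F).mapMatrix.toMonoidHom.comp ρ) m h1 g
  have tN : ∀ γ i, (t γ ^ i) ^ N = 1 := fun γ i => by
    rw [← pow_mul, mul_comm, pow_mul, ht, one_pow]
  obtain ⟨z0, hz⟩ := IsCyclic.exists_generator (α := (ResidueField A)ˣ)
  set e := orderOf z0 with he
  have : NeZero e := ⟨(orderOf_pos z0).ne'⟩
  have e1 : e = Nat.card (ResidueField A)ˣ := orderOf_eq_card_of_forall_mem_zpowers hz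
  let ω : (ResidueField A)ˣ →* O := φ.toMonoidHom.comp ((Units.coeHom A).comp τ)
  have inj : ∀ (S : Type) [Field S] [Algebra O S] z, algebraMap O S (ω z) = 1 → z = 1 :=
    fun S _ _ z h => by
      by_contra hz
      have h1 : IsUnit ((τ z : A) - 1) := by
        rw [← residue_ne_zero_iff_isUnit, map_sub, map_one, sub_ne_zero]
        exact fun k => hz (Units.ext ((congrArg Units.val (hτ z)).symm.trans k))
      exact ((h1.map φ).map (algebraMap O S)).ne_zero (by
        rw [map_sub, map_sub, map_one, map_one]; exact sub_eq_zero.2 h)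
  have prim : ∀ (S : Type) [Field S] [Algebra O S], IsPrimitiveRoot (algebraMap O S (ω z0)) e :=
    fun S _ _ => ⟨by rw [← map_pow, ← map_pow, pow_orderOf_eq_one, map_one, map_one],
      fun l hl => orderOf_dvd_of_pow_eq_one (inj S _ (by rw [map_pow, map_pow, hl]))⟩
  have rs : ∀ z, red A n (scalar (Fin n) (τ z)) = scalar (Fin n) z := fun z => by
    rw [Matrix.GeneralLinearGroup.map_scalar, hτ]
  have cen : ∀ s : GL (Fin n) A, s ^ N = 1 → ∀ z, red A n s = scalar (Fin n) z →
      s = scalar (Fin n) (τ z) := fun s hs z h => by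
    have h1 : z ^ N = 1 := scalar_inj hn (by rw [map_pow, ← h, ← map_pow, hs, map_one, map_one])
    obtain ⟨u, hu⟩ := isConj_iff.1 (conj_of (fun h => hN ((CharP.cast_eq_zero_iff _ p _).1 h)) hs
      (s := scalar (Fin n) (τ z)) (by rw [← map_pow, ← map_pow, h1, map_one, map_one])
      (h.trans (rs z).symm))
    rw [← hu, ← Matrix.GeneralLinearGroup.scalar_commute, mul_inv_cancel_right]
  choose! zz hzz using fun (s : GL (Fin n) A) (h : Scal s) => h
  let Y : ℕ → GL (Fin n) A → ℂ := fun r s =>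
    if Scal s then algebraMap O ℂ (ω (zz s)) ^ r else 0
  let L : ℕ → ℂ := fun r => ∑ γ, ∑ i ∈ range N, c γ i * Y r (t γ ^ i)
  let Ω := GL (Fin n) (ResidueField A) ⧸ (scalar (Fin n) : (ResidueField A)ˣ →* _).range
  have hΩ : Fintype.card Ω * e = Fintype.card (GL (Fin n) (ResidueField A)) := by
    rw [← Nat.card_eq_fintype_card, ← Nat.card_eq_fintype_card, e1,
      Subgroup.card_eq_card_quotient_mul_card_subgroup (scalar (Fin n)).range,
      Nat.card_congr (MonoidHom.ofInjective (scalar_inj hn)).toEquiv]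
  have hR : ∀ r, ∃ m : ℕ, (m : ℂ) = Fintype.card Ω * L r ∧ ∀ c' : F,
      a (scalar (Fin n) (τ z0)) = c' • 1 → algebraMap O F (ω z0) ^ r ≠ c' → m = 0 := fun r => by
    obtain ⟨ρ, r1, r2⟩ := ind (O := O) (scalar (Fin n)) (scalar_inj hn)
      Matrix.GeneralLinearGroup.scalar_commute ((powMonoidHom r).comp ω)
    let σ : Representation F (GL (Fin n) A) (Ω → F) :=
      (Matrix.toLinAlgEquiv' (R := F) (n := Ω)).toMonoidHom.comp
        ((algebraMap O F).mapMatrix.toMonoidHom.comp (ρ.comp (red A n)))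
    have hσ : ∀ g, σ g = Matrix.toLin' ((ρ (red A n g)).map (algebraMap O F)) := fun _ => rfl
    obtain ⟨m, hm⟩ := exm σ a
    refine ⟨m, ?_, fun c' h1 h2 => cen0 hm ?_ h1 h2⟩
    · rw [hc' Ω (ρ.comp (red A n)) _ σ m 1
        (fun g hg => by rw [MonoidHom.comp_apply, rd_red hg, map_one ρ]; exact map_one _)
        (fun g => by rw [hσ, Matrix.charpoly_toLin', Matrix.charpoly_map]; rfl) hm, mul_sum]
      refine sum_congr rfl fun γ _ => ?_
      rw [mul_sum]
      refine sum_congr rfl fun i _ => ?_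
      rw [mul_left_comm, MonoidHom.comp_apply]
      congr 1
      simp only [Y]
      split_ifs with h
      · rw [hzz _ h, r1]
        simp [mul_comm, Ω]
      · rw [r2 _ fun ⟨z, hz⟩ => h ⟨z, hz.symm⟩, map_zero, mul_zero]
    · rw [hσ, rs, r1, Matrix.smul_one_eq_diagonal, Matrix.diagonal_map (map_zero _),
        ← Matrix.smul_one_eq_diagonal, map_smul, Matrix.toLin'_one]
      simp [Module.End.one_eq_id]
  choose mR m1 m2 using hR
  have hS : (M : ℂ) = ∑ r ∈ range e, (mR r : ℂ) := by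
    obtain ⟨ι, _, _, ρ, r0, r1, r2⟩ := reg (O := O) (F := F) (Γ := GL (Fin n) (ResidueField A))
    rw [hc' ι (ρ.comp (red A n)) _ ((Representation.leftRegular F _).comp (red A n)) M 1
      (fun g hg => by rw [MonoidHom.comp_apply, rd_red hg, map_one ρ]; exact map_one _)
      (fun g => by simp only [MonoidHom.comp_apply, r2]) hM]
    simp only [m1, L, mul_sum]
    rw [sum_comm (s := range e)]
    refine sum_congr rfl fun γ _ => ?_
    rw [sum_comm (s := range e)]
    refine sum_congr rfl fun i _ => ?_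
    simp only [mul_left_comm _ (c γ i), ← mul_sum]
    congr 1
    rw [MonoidHom.comp_apply]
    by_cases h : Scal (t γ ^ i)
    · simp only [Y, if_pos h]
      rw [geo (by rw [← map_pow, ← map_pow, e1, pow_card_eq_one', map_one, map_one]),
        hzz _ h]
      by_cases k : zz (t γ ^ i) = 1
      · rw [k, map_one (scalar _), r0, ← hΩ]
        simp
      · rw [r1 _ fun j => k (scalar_inj hn (j.trans (map_one _).symm)),
          if_neg fun j => k (inj ℂ _ j), map_zero, mul_zero]
    · simp only [Y, if_neg h]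
      rw [r1 _ fun j => h ⟨1, j.trans (map_one _).symm⟩]
      simp
  refine ⟨N, ∑ γ, ∑ i ∈ range N, ‖c γ i‖, N0, hN, by positivity,
    fun V _ _ _ _ ρ m E ⟨lv, hl⟩ hz' hm E0 hE => ?_⟩
  let b := Module.finBasis O V
  let ρ' : GL (Fin n) A →* Matrix (Fin (finrank O V)) (Fin (finrank O V)) O :=
    (LinearMap.toMatrixAlgEquiv b).toMonoidHom.comp ρ
  have b1 : ∀ g, (algebraMap O F).mapMatrix (ρ' g) = LinearMap.toMatrixAlgEquiv
      (Algebra.TensorProduct.basis F b) (extend F ρ g) := fun g =>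
    (LinearMap.toMatrix_baseChange F (ρ g) b b).symm
  have b2 : ∀ g, (ρ' g).trace = LinearMap.trace O V (ρ g) := fun g =>
    (LinearMap.trace_eq_matrix_trace O b _).symm
  have h1 := hc' _ ρ' _ (extend F ρ) m lv (fun g hg => by rw [b1, hl g (rd_one.1 hg), map_one])
    (fun g => (LinearMap.charpoly_baseChange (ρ g) F).trans
      (congrArg _ (LinearMap.charpoly_toMatrix (ρ g) b).symm)) hm
  obtain ⟨r, hr, hD⟩ : ∃ r, (∀ i, algebraMap O ℂ (ρ' (scalar (Fin n) (τ z0)) ^ i).trace =
      finrank O V * (algebraMap O ℂ (ω z0) ^ i) ^ r) ∧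
      (finrank O V : ℂ) * L r = finrank O V * (e * M / Fintype.card (GL (Fin n) (ResidueField A))) := by
    rcases Nat.eq_zero_or_pos (finrank O V) with h0 | h0
    · have : IsEmpty (Fin (finrank O V)) := h0 ▸ inferInstance
      exact ⟨0, fun i => by simp [h0, Matrix.trace], by simp [h0]⟩
    have : Nonempty (Fin (finrank O V)) := ⟨⟨0, h0⟩⟩
    obtain ⟨c', k1, k2⟩ := hz' (τ z0)
    obtain ⟨r, r1, r2, r3⟩ := cent hO (B := ρ' (scalar (Fin n) (τ z0))) (by
      rw [← map_pow, ← map_pow, ← map_pow, pow_orderOf_eq_one, map_one, map_one, map_one])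
      (prim ℂ) (prim F) (c := c') (by rw [b1, k1, map_smul, map_one])
    refine ⟨r, by simpa using r3, congrArg _ ?_⟩
    rw [hS, sum_eq_single_of_mem r (mem_range.2 r1) fun j hj hjr => Nat.cast_eq_zero.2
      (m2 j c' k2 fun k => hjr ((prim F).pow_inj (mem_range.1 hj) r1 (k.trans r2.symm))),
      m1, ← hΩ, Nat.cast_mul]
    have : (Fintype.card Ω : ℂ) ≠ 0 := Nat.cast_ne_zero.2 Fintype.card_ne_zero
    have : (e : ℂ) ≠ 0 := Nat.cast_ne_zero.2 (NeZero.ne e)
    field_simp
  have h2 : ‖(m : ℂ) - finrank O V * L r‖ ≤ (∑ γ, ∑ i ∈ range N, ‖c γ i‖) * E := by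
    simp only [h1, L, mul_sum, ← sum_sub_distrib, sum_mul]
    refine norm_sum_le_of_le _ fun γ _ => norm_sum_le_of_le _ fun i _ => ?_
    rw [mul_left_comm, ← mul_sub, norm_mul]
    refine mul_le_mul_of_nonneg_left ?_ (norm_nonneg _)
    simp only [Y]
    split_ifs with h
    · obtain ⟨j, hj⟩ := mem_powers_iff_mem_zpowers.2 (hz (zz (t γ ^ i)))
      have k := cen _ (tN γ i) _ (hzz _ h)
      rw [← hj] at k ⊢
      rw [k]
      simp only [map_pow, hr, sub_self, norm_zero, E0]
    · rw [mul_zero, sub_zero, b2]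
      exact hE _ (tN γ i) h
  rw [hD] at h2
  refine le_of_eq_of_le ?_ h2
  rw [← Real.norm_eq_abs, ← Complex.norm_real, e1, Nat.card_units, Nat.cast_sub Nat.card_pos,
    Nat.card_eq_fintype_card (α := GL _ _)]
  push_cast
  rfl

end Pool.Agent.P.MP_7cb106_nt.As
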