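import Pool.Agent.P.MP_7cb106_nt.As.Ring

/-! The character bound for general linear groups over finite chain rings. -/

set_option autoImplicit false
set_option linter.unusedSectionVars false

namespace Pool.Agent.P.MP_7cb106_nt.As

open Module Finset
open LinearMap (trace)
open Matrix (single)
open scoped Classical

variable {R : Type} [CommRing R] {ι : Type} [Fintype ι] [DecidableEq ι] {π : R}
  {V : Type} [AddCommGroup V] [Module ℂ V] [FiniteDimensional ℂ V]
  {σ : Representation ℂ (GL ι R) V}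

/-- `θ` kills the commutators with `Y` multiplied by `c` -/
def Kil (θ : AddChar (Matrix ι ι R) ℂ) (c : R) (Y : Matrix ι ι R) : Prop :=
  ∀ Z, θ (c • (Y * Z - Z * Y)) = 1

/-- not scalar modulo the maximal ideal -/
def Nsc (s : GL ι R) : Prop :=
  ∃ (Y : Matrix ι ι R) (a b : ι), IsUnit ((s.val * Y - Y * s.val) a b)

section
variable {θ : AddChar (Matrix ι ι R) ℂ} {c : R}

theorem Kil.zero : Kil θ c 0 := fun Z => by simp

theorem Kil.add {Y Y' : Matrix ι ι R} (h : Kil θ c Y) (h' : Kil θ c Y') : Kil θ c (Y + Y') :=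
  fun Z => by
    rw [show (Y + Y') * Z - Z * (Y + Y') = (Y * Z - Z * Y) + (Y' * Z - Z * Y') by noncomm_ring,
      smul_add, AddChar.map_add_eq_mul, h, h', one_mul]

theorem Kil.mul {Y Y' : Matrix ι ι R} (h : Kil θ c Y) (h' : Kil θ c Y') : Kil θ c (Y * Y') :=
  fun Z => by
    rw [show Y * Y' * Z - Z * (Y * Y') = (Y * (Y' * Z) - Y' * Z * Y) + (Y' * (Z * Y) - Z * Y * Y') by
      noncomm_ring, smul_add, AddChar.map_add_eq_mul, h, h', one_mul]

theorem Kil.all {s : GL ι R} {N : ℕ} (hs : s ^ N = 1) (hN : IsUnit (N : R))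
    (hns : Nsc s)
    (h : ∀ Y, Kil θ c (cj s Y - Y)) (Y : Matrix ι ι R) : Kil θ c Y := by
  have key : ∀ A B Y, Kil θ c (A * (cj s Y - Y) * B) := by
    intro A B Y
    obtain ⟨A₀, A₁, a, rfl⟩ := split hs hN A
    obtain ⟨B₀, B₁, b, rfl⟩ := split hs hN B
    have e1 : A₀ * (cj s Y - Y) = cj s (A₀ * Y) - A₀ * Y := by rw [cj_mul, a, mul_sub]
    have e2 : ∀ X, (cj s X - X) * B₀ = cj s (X * B₀) - X * B₀ := fun X => by
      rw [cj_mul, b, sub_mul]
    rw [add_mul, add_mul, mul_add, mul_add, e1, e2, mul_assoc (cj s A₁ - A₁) _ B₀, e2]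
    exact ((h _).add ((h _).mul (h _))).add (((h _).mul (h _)).add (((h _).mul (h _)).mul (h _)))
  obtain ⟨X, a, b, hu⟩ := hns
  rw [Matrix.matrix_eq_sum_single Y]
  refine sum_induction _ _ (fun _ _ => Kil.add) Kil.zero fun i _ =>
    sum_induction _ _ (fun _ _ => Kil.add) Kil.zero fun k _ => ?_
  have := key (single i a (Y i k * (hu.unit⁻¹).val)) (s.val * single b k 1) X
  rwa [mul_assoc, ← mul_assoc _ s.val, sub_mul, cj_apply, Units.inv_mul_cancel_right, ← mul_assoc,
    Matrix.single_mul_mul_single, mul_one, mul_assoc, IsUnit.val_inv_mul, mul_one] at this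

end

theorem cj_el (hπ : IsNilpotent π) {j : ℕ} (hj : 1 ≤ j) (X Z : Matrix ι ι R) :
    ∃ W, cj (el π j X) Z = Z + π ^ j • (X * Z - Z * X) + π ^ (2 * j) • W := by
  have e : (1 + π ^ j • X) * ((el π j X)⁻¹).val = 1 := by rw [← el_val hπ hj, Units.mul_inv]
  refine ⟨-((X * Z - Z * X) * X * ((el π j X)⁻¹).val), ?_⟩
  rw [cj_apply, el_val hπ hj]
  generalize ((el π j X)⁻¹).val = h at e
  have e1 : Z + π ^ j • (X * Z - Z * X) =
      (Z + π ^ j • (X * Z - Z * X)) * ((1 + π ^ j • X) * h) := by rw [e, mul_one]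
  rw [e1, two_mul, pow_add, ← smul_smul]
  simp only [add_mul, mul_add, sub_mul, smul_sub, smul_mul_assoc, mul_smul_comm, one_mul,
    mul_assoc, smul_neg, smul_add]
  abel

theorem main_case [Finite R] (hπ : Chn π) (hσ : σ.IsIrreducible) {l m j u : ℕ}
    (h : Triv π σ (l + m)) (hml : m ≤ l) (hm : m = j + u) (huj : u ≤ j) (hu : 1 ≤ u)
    (hc : ¬ ∀ Y Z, σ (el π (l + m - 1) (Y * Z - Z * Y)) = 1) {s : GL ι R} {N : ℕ} (hN0 : 0 < N)
    (hs : s ^ N = 1) (hN : IsUnit (N : R)) (hns : Nsc s) :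
    ww π u * ‖trace ℂ V (σ s)‖ ≤ finrank ℂ V := by
  have : Fintype R := Fintype.ofFinite R
  have hl : 1 ≤ l := by omega
  have hj : 1 ≤ j := by omega
  let α : Matrix ι ι R → Module.End ℂ V := fun Z => σ (el π l Z)
  have hα : Act α := h.act hπ.nil hl (by omega)
  have hcj : ∀ g x, σ g * α x = α (cj g x) * σ g := fun g x => by
    simp only [α, ← map_mul, mul_el hπ.nil hl]
  have f1 : ∀ θ, pr α θ ≠ 0 → ∀ x, α x = 1 → θ x = 1 := fun θ h0 x hx => by
    have := hα.mul θ x
    rw [hx, one_mul] at this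
    exact (smul_left_injective ℂ h0 ((one_smul ℂ _).trans this)).symm
  have f2 : ∀ θ, pr α θ ≠ 0 → ∀ Z, θ (π ^ m • Z) = 1 := fun θ h0 Z =>
    f1 θ h0 _ (h _ Z (by rw [el_val hπ.nil hl, smul_smul, ← pow_add]))
  have f3 : ∀ θ, pr α θ ≠ 0 → ¬ ∀ Y, Kil θ (π ^ (m - 1)) Y := by
    intro θ h0 hk
    let U : Submodule ℂ V :=
      { carrier := {v | ∀ Y Z, α (π ^ (m - 1) • (Y * Z - Z * Y)) v = v}
        add_mem' := fun a b Y Z => by rw [map_add, a, b]
        zero_mem' := fun Y Z => map_zero _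
        smul_mem' := fun c v a Y Z => by rw [map_smul, a] }
    have hU : U = ⊤ := by
      refine stable_top hσ U (fun g v hv Y Z => ?_) fun e => h0 (LinearMap.ext fun v => ?_)
      · have := congrArg (fun f : Module.End ℂ V => f v)
          (hcj g (π ^ (m - 1) • (cj g⁻¹ Y * cj g⁻¹ Z - cj g⁻¹ Z * cj g⁻¹ Y)))
        simp only [Module.End.mul_apply, hv _ _, cj_smul, map_sub, cj_mul, cj_inv] at this
        exact this.symm
      · have : pr α θ v ∈ U := fun Y Z => by
          rw [← Module.End.mul_apply, hα.mul, hk Y Z, one_smul]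
        rwa [e] at this
    refine hc fun Y Z => LinearMap.ext fun v => ?_
    have : v ∈ U := hU ▸ Submodule.mem_top
    have e : el π (l + m - 1) (Y * Z - Z * Y) = el π l (π ^ (m - 1) • (Y * Z - Z * Y)) := by
      ext1
      rw [el_val hπ.nil hl, el_val hπ.nil (by omega), smul_smul, ← pow_add,
        show l + (m - 1) = l + m - 1 by omega]
    rw [e]
    exact this Y Z
  have f4 : ∀ θ : AddChar (Matrix ι ι R) ℂ, ∃ Y, pr α θ ≠ 0 →
      ¬ Kil θ (π ^ (m - 1)) (cj s Y - Y) := by
    intro θ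
    by_contra hh
    push Not at hh
    exact f3 θ (hh 0).1 (Kil.all hs hN hns fun Y => (hh Y).2)
  choose Y hY using f4
  let tw : AddChar (Matrix ι ι R) ℂ → R → AddChar (Matrix ι ι R) ℂ := fun θ c =>
    θ.compAddMonoidHom (cj (el π j (c • (cj s (Y θ) - Y θ)))).toAddMonoidHom
  have f5 : ∀ θ, pr α θ ≠ 0 → ∀ c Z, tw θ c Z =
      θ Z * θ ((π ^ j * c) • ((cj s (Y θ) - Y θ) * Z - Z * (cj s (Y θ) - Y θ))) := by
    intro θ h0 c Z
    obtain ⟨W, hW⟩ := cj_el hπ.nil hj (c • (cj s (Y θ) - Y θ)) Z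
    change θ (cj _ Z) = _
    rw [hW, AddChar.map_add_eq_mul, AddChar.map_add_eq_mul,
      show 2 * j = m + (j - u) by omega, pow_add, ← smul_smul, f2 θ h0, mul_one, smul_mul_assoc,
      mul_smul_comm, ← smul_sub, smul_smul]
  have f6 : ∀ θ : AddChar (Matrix ι ι R) ℂ, (∀ x, θ (cj s x) = θ x) → ∀ x, θ (cj s x - x) = 1 := by
    intro θ hθ x
    have : θ x ≠ 0 := fun e => by
      have := θ.map_add_eq_mul x (-x)
      rw [e, zero_mul, add_neg_cancel, AddChar.map_zero_eq_one] at this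
      exact one_ne_zero this
    refine mul_right_cancel₀ this ?_
    rw [← AddChar.map_add_eq_mul, sub_add_cancel, hθ, one_mul]
  have f7 : ∀ θ : AddChar (Matrix ι ι R) ℂ, (∀ x, θ (cj s x) = θ x) → pr α θ ≠ 0 → ∀ c Z,
      cj s Z = Z → tw θ c Z = θ Z := by
    intro θ hθ h0 c Z hZ
    have := f6 θ hθ ((π ^ j * c) • (Y θ * Z - Z * Y θ))
    rw [cj_smul, map_sub (cj s), cj_mul, cj_mul, hZ, ← smul_sub] at this
    rw [f5 θ h0, show (cj s (Y θ) - Y θ) * Z - Z * (cj s (Y θ) - Y θ) =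
      cj s (Y θ) * Z - Z * cj s (Y θ) - (Y θ * Z - Z * Y θ) by noncomm_ring, this, mul_one]
  refine (mul_le_mul_of_nonneg_left (hα.tr_le hN0 (by rw [← map_pow, hs, map_one]) (hcj s))
    (Nat.cast_nonneg _)).trans (hα.count _ _
      (fun θ => univ.image fun c : R ⧸ Ideal.span {π ^ u} => tw θ c.out)
      (fun θ _ h0 => ⟨?_, fun θ' hθ' => ?_⟩) fun θ θ' a a' b b' hne => ?_)
  · rw [card_image_of_injective _ fun c c' e => ?_, card_univ, ww, Nat.card_eq_fintype_card]
    rw [← Ideal.Quotient.mk_out c, ← Ideal.Quotient.mk_out c']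
    refine Ideal.Quotient.eq.2 (Ideal.mem_span_singleton.2 ?_)
    by_contra hd
    obtain ⟨t, ht, e', he⟩ := hπ.val hd
    refine hY θ h0 fun Z => ?_
    have e1 := DFunLike.congr_fun e ((π ^ (u - 1 - t) * (e'⁻¹).val) • Z)
    have n1 : ∀ x, θ x ≠ 0 := fun x e => by
      have := θ.map_add_eq_mul x (-x)
      rw [e, zero_mul, add_neg_cancel, AddChar.map_zero_eq_one] at this
      exact one_ne_zero this
    simp only [f5 θ h0, mul_smul_comm, smul_mul_assoc, ← smul_sub, smul_smul] at e1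
    have e2 := mul_left_cancel₀ (n1 _) e1
    have e3 : π ^ j * c.out * (π ^ (u - 1 - t) * (e'⁻¹).val) =
        π ^ (m - 1) + π ^ j * c'.out * (π ^ (u - 1 - t) * (e'⁻¹).val) := by
      have : π ^ (m - 1) = π ^ j * π ^ t * π ^ (u - 1 - t) := by
        rw [← pow_add, ← pow_add]; congr 1; omega
      rw [this]
      linear_combination π ^ j * (π ^ (u - 1 - t) * (e'⁻¹).val) * he +
        π ^ j * π ^ t * π ^ (u - 1 - t) * e'.mul_inv
    rw [e3, add_smul, AddChar.map_add_eq_mul] at e2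
    exact mul_right_cancel₀ (n1 _) (e2.trans (one_mul _).symm)
  · obtain ⟨c, -, rfl⟩ := mem_image.1 hθ'
    exact rk_conj (u := σ (el π j _)⁻¹) (u' := σ (el π j _))
      (by rw [← map_mul, inv_mul_cancel, map_one]) (by rw [← map_mul, mul_inv_cancel, map_one])
      (hcj _) fun x => congrArg θ (cj_inv _ x)
  · refine disjoint_left.2 fun ψ h1 h2 => hne (DFunLike.ext _ _ fun Z => ?_)
    obtain ⟨c, -, rfl⟩ := mem_image.1 h1
    obtain ⟨c', -, e⟩ := mem_image.1 h2
    obtain ⟨Z₀, Z₁, z, rfl⟩ := split hs hN Z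
    rw [AddChar.map_add_eq_mul, AddChar.map_add_eq_mul, f6 θ a, f6 θ' a', ← f7 θ a b c.out Z₀ z,
      ← f7 θ' a' b' c'.out Z₀ z, e]

theorem extend_char {G A : Type} [Group G] [CommGroup A] [Finite A] (φ : G →* A) (b : G →* ℂˣ)
    (h : ∀ g, φ g = 1 → b g = 1) : ∃ χ : A →* ℂˣ, ∀ g, χ (φ g) = b g := by
  have : NeZero ((Monoid.exponent A : ℕ) : ℂ) := ⟨Nat.cast_ne_zero.2 Monoid.exponent_ne_zero_of_finite⟩
  obtain ⟨χ, hχ⟩ := MonoidHom.domRestrict_surjective ℂ φ.range
    (φ.rangeRestrict.liftOfSurjective φ.rangeRestrict_surjective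
      ⟨b, fun g hg => h g (congrArg Subtype.val hg)⟩)
  refine ⟨χ, fun g => ?_⟩
  have := DFunLike.congr_fun hχ (φ.rangeRestrict g)
  rw [MonoidHom.liftOfRightInverse_comp_apply] at this
  exact this

theorem twist [Finite R] (hπ : IsNilpotent π) (hσ : σ.IsIrreducible) {i : ℕ} (hi : 1 ≤ i)
    (h : Triv π σ (i + 1)) (hc : ∀ Y Z, σ (el π i (Y * Z - Z * Y)) = 1) :
    ∃ χ : Rˣ →* ℂˣ, ∀ (g : GL ι R) Z, g.val = 1 + π ^ i • Z →
      σ g = (χ (Matrix.GeneralLinearGroup.det g) : ℂ) • 1 := by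
  have hα := h.act hπ hi (by omega)
  have e0 : ∀ (g : GL ι R) Z, g.val = 1 + π ^ i • Z → g = el π i Z := fun g Z e =>
    Units.ext (e.trans (el_val hπ hi Z).symm)
  have f1 : ∀ (g : GL ι R) Z, g.val = 1 + π ^ i • Z → Matrix.GeneralLinearGroup.det g = 1 →
      σ g = 1 := by
    intro g Z e hd
    rcases isEmpty_or_nonempty ι with _ | ⟨⟨o⟩⟩
    · rw [Subsingleton.elim g 1, map_one]
    have e1 : σ (el π i (Z - single o o Z.trace)) = 1 := by
      have : Z - single o o Z.trace = ∑ a, ∑ b, (single a o (Z a b) * single o b 1 -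
          single o b 1 * single a o (Z a b)) := by
        simp only [sum_sub_distrib, Matrix.single_mul_single_same, mul_one]
        rw [← Matrix.matrix_eq_sum_single Z, Matrix.trace, ← Matrix.singleAddMonoidHom_apply, map_sum]
        congr 1
        refine sum_congr rfl fun a _ => ?_
        rw [sum_eq_single a (fun b _ hb => Matrix.single_mul_single_of_ne _ _ _ _ hb _) (by simp),
          Matrix.single_mul_single_same, one_mul]
        rfl
      rw [this]
      exact sum_induction _ (fun X => σ (el π i X) = 1) (fun _ _ a b => by rw [hα.add, a, b, one_mul])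
        hα.zero fun a _ => sum_induction _ (fun X => σ (el π i X) = 1)
          (fun _ _ a b => by rw [hα.add, a, b, one_mul]) hα.zero fun b _ => hc _ _
    have e2 := congrArg Units.val hd
    rw [Matrix.GeneralLinearGroup.val_det_apply, e, Matrix.det_one_add_smul, Units.val_one] at e2
    generalize Polynomial.eval (π ^ i) _ = y at e2
    rw [← e1]
    refine h.congr (single o o (-(y * π ^ (i - 1)))) ?_
    have e3 : π ^ i * Z.trace = π ^ (i + 1) * -(y * π ^ (i - 1)) := by
      have : (π ^ i) ^ 2 = π ^ (i + 1) * π ^ (i - 1) := by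
        rw [← pow_mul, ← pow_add]; congr 1; omega
      rw [this] at e2
      linear_combination e2
    rw [e, el_val hπ hi, smul_sub, Matrix.smul_single, Matrix.smul_single, smul_eq_mul, smul_eq_mul,
      e3]
    abel
  have f2 : ∀ Z, ∃ c : ℂ, σ (el π i Z) = c • 1 := by
    intro Z
    obtain ⟨c, hc'⟩ :=
      (Representation.IsIrreducible.algebraMap_intertwiningMap_bijective_of_isAlgClosed
        (ρ := σ)).2 ⟨σ (el π i Z), fun g => by
          have e : cj g Z = Z + (g.val * (Z * (g⁻¹).val) - Z * (g⁻¹).val * g.val) := by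
            rw [cj_apply, Units.inv_mul_cancel_right, mul_assoc]; abel
          change σ _ * σ g = σ g * σ _
          rw [← map_mul σ g, mul_el hπ hi, map_mul, e, hα.add, hc, mul_one]⟩
    exact ⟨c, (congrArg Representation.IntertwiningMap.toLinearMap hc').symm⟩
  let H : Subgroup (GL ι R) :=
    { carrier := {g | ∃ Z, g.val = 1 + π ^ i • Z}
      one_mem' := ⟨0, by simp⟩
      mul_mem' := by
        rintro g g' ⟨Z, a⟩ ⟨Z', b⟩
        refine ⟨Z + Z' + π ^ i • (Z * Z'), ?_⟩
        simp only [Units.val_mul, a, b, add_mul, mul_add, one_mul, mul_one, smul_add,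
          smul_mul_assoc, mul_smul_comm]
        abel
      inv_mem' := by
        rintro g ⟨Z, a⟩
        refine ⟨-(Z * (g⁻¹).val), ?_⟩
        have := g.mul_inv
        rw [a, add_mul, one_mul, smul_mul_assoc] at this
        rw [smul_neg, ← this]
        abel }
  have f3 : ∀ g : H, ∃ c : ℂ, σ g = c • 1 := fun g => by
    obtain ⟨Z, hZ⟩ := g.2
    rw [e0 g Z hZ]
    exact f2 Z
  choose c hc' using f3
  have : Nontrivial V := by
    by_contra hV
    rw [not_nontrivial_iff_subsingleton] at hV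
    exact hσ.bot_ne_top (Subrepresentation.toSubmodule_injective (Subsingleton.elim _ _))
  have inj := smul_left_injective ℂ (one_ne_zero (α := Module.End ℂ V))
  let b : H →* ℂ :=
    { toFun := c
      map_one' := inj (by simp only [← hc', one_smul, Subgroup.coe_one, map_one])
      map_mul' := fun g g' => inj (by
        simp only [← hc', Subgroup.coe_mul, map_mul]
        rw [hc', hc', smul_mul_smul_comm, one_mul]) }
  obtain ⟨χ, hχ⟩ := extend_char (Matrix.GeneralLinearGroup.det.comp H.subtype) b.toHomUnits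
    fun g hg => Units.ext (inj (by
      obtain ⟨Z, hZ⟩ := g.2
      change c g • _ = (1 : ℂ) • _
      rw [← hc', f1 g Z hZ hg, one_smul]))
  exact ⟨χ, fun g Z e => (hc' ⟨g, Z, e⟩).trans (congrArg (fun x : ℂˣ => (x : ℂ) • (1 : Module.End ℂ V))
    (hχ ⟨g, Z, e⟩).symm)⟩

theorem char_bound [Finite R] (hπ : Chn π) {s : GL ι R} {N : ℕ} (hN0 : 0 < N)
    (hs : s ^ N = 1) (hN : IsUnit (N : R)) (hns : Nsc s)
    (i : ℕ) : ∀ σ : Representation ℂ (GL ι R) V, σ.IsIrreducible → Triv π σ i →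
      ∃ w : ℕ, 1 ≤ w ∧ finrank ℂ V ≤ (ww π 1 * w) ^ (7 * (Fintype.card ι * Fintype.card ι)) ∧
        w * ‖trace ℂ V (σ s)‖ ≤ finrank ℂ V := by
  have dim : ∀ σ : Representation ℂ (GL ι R) V, σ.IsIrreducible → ∀ u, Triv π σ (7 * u) →
      finrank ℂ V ≤ ww π u ^ (7 * (Fintype.card ι * Fintype.card ι)) := fun σ hσ u h => by
    rw [pow_mul]
    exact (h.dim hσ).trans (Nat.pow_le_pow_left (ww_mul u 7) _)
  induction i with
  | zero =>
    intro σ hσ h
    exact ⟨1, le_rfl, by rw [mul_one]; exact dim σ hσ 1 (h.mono (by omega)), by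
      rw [Nat.cast_one, one_mul]; exact tr_le_dim hN0 (by rw [← map_pow, hs, map_one])⟩
  | succ i ih =>
    intro σ hσ h
    by_cases h7 : i + 1 ≤ 7
    · exact ⟨1, le_rfl, by rw [mul_one]; exact dim σ hσ 1 (h.mono (by omega)), by
        rw [Nat.cast_one, one_mul]; exact tr_le_dim hN0 (by rw [← map_pow, hs, map_one])⟩
    by_cases hc : ∀ Y Z, σ (el π i (Y * Z - Z * Y)) = 1
    · obtain ⟨χ, hχ⟩ := twist hπ.nil hσ (by omega) h hc
      let η : GL ι R →* ℂˣ := χ.comp Matrix.GeneralLinearGroup.det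
      let σ' : Representation ℂ (GL ι R) V :=
        { toFun := fun g => ((η g)⁻¹ : ℂˣ).val • σ g
          map_one' := by simp
          map_mul' := fun g g' => by
            rw [map_mul, map_mul, mul_inv, Units.val_mul, smul_mul_smul_comm] }
      have hσ' : σ'.IsIrreducible := by
        let e : Subrepresentation σ' ≃o Subrepresentation σ :=
          { toFun := fun X => ⟨X.toSubmodule, fun g v hv => by
              have := X.toSubmodule.smul_mem (η g).val (X.apply_mem_toSubmodule g hv)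
              change (η g).val • ((η g)⁻¹ : ℂˣ).val • σ g v ∈ _ at this
              rwa [smul_smul, Units.mul_inv, one_smul] at this⟩
            invFun := fun X => ⟨X.toSubmodule, fun g v hv =>
              X.toSubmodule.smul_mem _ (X.apply_mem_toSubmodule g hv)⟩
            left_inv := fun _ => rfl
            right_inv := fun _ => rfl
            map_rel_iff' := Iff.rfl }
        exact e.isSimpleOrder
      obtain ⟨w, a, b, c⟩ := ih σ' hσ' fun g Z e => by
        change ((η g)⁻¹ : ℂˣ).val • σ g = 1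
        rw [hχ g Z e, smul_smul]
        exact (congrArg (· • (1 : Module.End ℂ V)) (η g).inv_mul).trans (one_smul _ _)
      refine ⟨w, a, b, le_of_eq_of_le ?_ c⟩
      change _ = w * ‖trace ℂ V (((η s)⁻¹ : ℂˣ).val • σ s)‖
      have : ‖((η s)⁻¹ : ℂˣ).val‖ = 1 := Complex.norm_eq_one_of_pow_eq_one (n := N) (by
        rw [← Units.val_pow_eq_pow_val, inv_pow, ← map_pow, hs, map_one, inv_one, Units.val_one])
        hN0.ne'
      rw [map_smul, norm_smul, this, one_mul]
    · refine ⟨ww π ((i + 1) / 4), ww_pos _, (dim σ hσ _ (h.mono (by omega))).trans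
        (Nat.pow_le_pow_left (Nat.le_mul_of_pos_left _ (ww_pos 1)) _), ?_⟩
      have e : i + 1 - (i + 1) / 2 + (i + 1) / 2 = i + 1 := by omega
      exact main_case (l := i + 1 - (i + 1) / 2) (m := (i + 1) / 2) (j := (i + 1) / 2 - (i + 1) / 4)
        hπ hσ (by rwa [e]) (by omega) (by omega) (by omega) (by omega) (by rwa [e]) hN0 hs hN hns

end Pool.Agent.P.MP_7cb106_nt.As
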