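import Pool.Agent.P.MP_7cb106_nt.Defs

/-! Definitions used by the statement on asymptotic multiplicities. -/

set_option autoImplicit false

namespace Pool.Agent.P.MP_7cb106_nt.As

open Polynomial

/-- the representation is trivial on a principal congruence subgroup -/
def Level {A B V : Type} [CommRing A] [IsLocalRing A] [CommRing B] [AddCommGroup V] [Module B V]
    {n : ℕ} (ρ : Representation B (GL (Fin n) A) V) : Prop :=
  ∃ m : ℕ, ∀ g : GL (Fin n) A,
    (∀ i j, ((g : Matrix (Fin n) (Fin n) A) - 1) i j ∈ IsLocalRing.maximalIdeal A ^ m) → ρ g = 1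

/-- the reduction map to the general linear group of the residue field -/
noncomputable abbrev red (A : Type) [CommRing A] [IsLocalRing A] (n : ℕ) :
    GL (Fin n) A →* GL (Fin n) (IsLocalRing.ResidueField A) :=
  Matrix.GeneralLinearGroup.map (IsLocalRing.residue A)

/-- The character of the algebraic representation of `GL_n` of highest weight `l` (integers
`l 0 ≥ l 1 ≥ ...`, of any sign) at a matrix with eigenvalues `x`. Branching rule (Weyl,
Gelfand-Tsetlin): restricted to `GL_n × GL_1`, the representation of `GL_(n+1)` of weight `l` is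
the sum, over the weights `m` that interlace `l`, of the representation of weight `m` times the
character of exponent `∑ l - ∑ m` of `GL_1`. -/
noncomputable def schur : (n : ℕ) → (Fin n → ℤ) → (Fin n → ℂ) → ℂ
  | 0, _, _ => 1
  | n + 1, l, x =>
    ∑ m ∈ Fintype.piFinset fun i : Fin n => Finset.Icc (l i.succ) (l i.castSucc),
      schur n m (fun i => x i.castSucc) * x (Fin.last n) ^ (∑ i, l i - ∑ i, m i)

/-- the trace of `g` is the product over the embeddings `φ j` of the characters of highest weight
`l j` at the eigenvalues of `φ j g` -/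
def Weyl {A O J V : Type} [CommRing A] [CommRing O] [Algebra O ℂ] [Fintype J] [AddCommGroup V]
    [Module O V] {n : ℕ} (φ : J → A →+* O) (l : J → Fin n → ℤ)
    (ρ : Representation O (GL (Fin n) A) V) : Prop :=
  ∀ (g : GL (Fin n) A) (x : J → Fin n → ℂ),
    (∀ j, ((g : Matrix (Fin n) (Fin n) A).map fun a => algebraMap O ℂ (φ j a)).charpoly =
      ∏ i, (X - C (x j i))) →
    algebraMap O ℂ (LinearMap.trace O V (ρ g)) = ∏ j, schur n (l j) (x j)

end Pool.Agent.P.MP_7cb106_nt.As
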