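import Pool.Agent.P.MP_7cb106_nt.As.Defs

/-! A bound for Schur functions at points of the unit torus that are not central. -/

set_option autoImplicit false

namespace Pool.Agent.P.MP_7cb106_nt.As

open Finset Function

/-- the weights that interlace `l` -/
noncomputable def box {n : ℕ} (l : Fin (n + 1) → ℤ) : Finset (Fin n → ℤ) :=
  Fintype.piFinset fun i : Fin n => Icc (l i.succ) (l i.castSucc)

lemma mem_box {n : ℕ} {l : Fin (n + 1) → ℤ} {m : Fin n → ℤ} :
    m ∈ box l ↔ ∀ i, l i.succ ≤ m i ∧ m i ≤ l i.castSucc := by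
  simp [box]

/-- the number of Gelfand-Tsetlin patterns -/
noncomputable def gtd : (n : ℕ) → (Fin n → ℤ) → ℕ
  | 0, _ => 1
  | n + 1, l => ∑ m ∈ box l, gtd n m

lemma schur_succ {n : ℕ} (l : Fin (n + 1) → ℤ) (x : Fin (n + 1) → ℂ) : schur (n + 1) l x =
    ∑ m ∈ box l, schur n m (fun i => x i.castSucc) * x (Fin.last n) ^ (∑ i, l i - ∑ i, m i) := rfl

lemma gtd_succ {n : ℕ} (l : Fin (n + 1) → ℤ) : gtd (n + 1) l = ∑ m ∈ box l, gtd n m := rfl

lemma anti_box {n : ℕ} {l : Fin (n + 1) → ℤ} {m : Fin n → ℤ} (h : m ∈ box l) : Antitone m := by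
  rw [mem_box] at h
  cases n with
  | zero => exact fun i => i.elim0
  | succ n => exact Fin.antitone_iff_succ_le.2 fun i => (h i.succ).2.trans (h i.castSucc).1

lemma schur_one (n : ℕ) : ∀ l, schur n l (fun _ => 1) = gtd n l := by
  induction n with
  | zero => intro l; simp [schur, gtd]
  | succ n ih => intro l; simp [schur_succ, gtd_succ, ih]

lemma norm_schur (n : ℕ) : ∀ l (x : Fin n → ℂ), (∀ i, ‖x i‖ = 1) → ‖schur n l x‖ ≤ gtd n l := by
  induction n with
  | zero => intro l x _; simp [schur, gtd]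
  | succ n ih =>
    intro l x hx
    rw [schur_succ, gtd_succ, Nat.cast_sum]
    refine norm_sum_le_of_le _ fun m _ => ?_
    rw [norm_mul, norm_zpow, hx, one_zpow, mul_one]
    exact ih _ _ fun i => hx _

lemma gtd_pos (n : ℕ) : ∀ l : Fin n → ℤ, Antitone l → 1 ≤ gtd n l := by
  induction n with
  | zero => intro l _; simp [gtd]
  | succ n ih =>
    intro l hl
    have h : (fun i => l i.castSucc) ∈ box l :=
      mem_box.2 fun i => ⟨hl (Fin.castSucc_lt_succ (i := i)).le, le_rfl⟩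
    exact (ih _ (anti_box h)).trans (single_le_sum (f := gtd n) (fun _ _ => Nat.zero_le _) h)

lemma gtd_le (a : ℤ) (L n : ℕ) : ∀ l : Fin n → ℤ, (∀ i, a ≤ l i ∧ l i ≤ a + L) →
    gtd n l ≤ (L + 1) ^ (n * n) := by
  induction n with
  | zero => intro l _; simp [gtd]
  | succ n ih =>
    intro l hl
    have h1 : #(box l) ≤ (L + 1) ^ n := by
      rw [box, Fintype.card_piFinset]
      refine (prod_le_pow_card _ _ (L + 1) fun i _ => ?_).trans (by simp)
      have := hl i.succ
      have := hl i.castSucc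
      rw [Int.card_Icc]
      omega
    have h2 := sum_le_card_nsmul (box l) (gtd n) ((L + 1) ^ (n * n)) fun m hm => ih m fun i => by
      have := mem_box.1 hm i
      have := hl i.succ
      have := hl i.castSucc
      omega
    rw [gtd_succ]
    refine h2.trans ((Nat.mul_le_mul_right _ h1).trans ?_)
    rw [← pow_add]
    exact Nat.pow_le_pow_right (by omega) (by nlinarith)

lemma gtd_mono {n : ℕ} {l l' : Fin (n + 1) → ℤ} (h1 : ∀ i : Fin n, l' i.succ ≤ l i.succ)
    (h2 : ∀ i : Fin n, l i.castSucc ≤ l' i.castSucc) : gtd (n + 1) l ≤ gtd (n + 1) l' :=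
  sum_le_sum_of_subset fun _ hm => mem_box.2 fun i =>
    ⟨(h1 i).trans (mem_box.1 hm i).1, (mem_box.1 hm i).2.trans (h2 i)⟩

lemma cheb {ι : Type} [Fintype ι] [DecidableEq ι] (S : ι → Finset ℤ) (i : ι) (d : (ι → ℤ) → ℝ)
    (f : ℤ → ℝ) (h : ∀ m ∈ Fintype.piFinset S, ∀ u ∈ S i,
      (d m - d (update m i u)) * (f (m i) - f u) ≤ 0) :
    #(S i) * ∑ m ∈ Fintype.piFinset S, d m * f (m i) ≤
      (∑ m ∈ Fintype.piFinset S, d m) * ∑ u ∈ S i, f u := by
  have sym : ∀ G : (ι → ℤ) → ℤ → ℝ, ∑ m ∈ Fintype.piFinset S, ∑ u ∈ S i, G (update m i u) (m i) =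
      ∑ m ∈ Fintype.piFinset S, ∑ u ∈ S i, G m u := fun G => by
    rw [← sum_product', ← sum_product']
    have hm : ∀ p ∈ Fintype.piFinset S ×ˢ S i,
        (update p.1 i p.2, p.1 i) ∈ Fintype.piFinset S ×ˢ S i := fun p hp => by
      simp only [mem_product, Fintype.mem_piFinset] at hp ⊢
      refine ⟨fun j => ?_, hp.1 i⟩
      by_cases e : j = i
      · subst e; simpa using hp.2
      · simpa [update_of_ne e] using hp.1 j
    exact sum_nbij' (fun p => (update p.1 i p.2, p.1 i)) (fun p => (update p.1 i p.2, p.1 i))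
      hm hm (fun p _ => by simp) (fun p _ => by simp) fun p _ => rfl
  have e1 := sym fun m _ => d m * f (m i)
  have e2 := sym fun m u => d m * f u
  have e3 := sum_nonpos fun m hm => sum_nonpos fun u hu => h m hm u hu
  simp only [update_self] at e1
  simp only [sub_mul, mul_sub, sum_sub_distrib, e1, e2] at e3
  simp only [sum_const, nsmul_eq_mul, ← mul_sum, ← sum_mul] at e3
  linarith

/-- the saving -/
noncomputable def wt (t : ℤ) : ℝ := 1 / √(t + 1)

lemma wt_nonneg (t : ℤ) : 0 ≤ wt t := by unfold wt; positivity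

lemma wt_anti {a b : ℤ} (ha : 0 ≤ a) (h : a ≤ b) : wt b ≤ wt a := by
  have h1 : (0 : ℝ) ≤ a := by exact_mod_cast ha
  have h2 : (a : ℝ) ≤ b := by exact_mod_cast h
  unfold wt
  gcongr

lemma wt_two {a t : ℤ} (ht : 0 ≤ t) (ha : 0 ≤ a) (h : t ≤ 3 * a) : wt a ≤ 2 * wt t := by
  have h1 : (0 : ℝ) ≤ a := by exact_mod_cast ha
  have h2 : (t : ℝ) ≤ 3 * a := by exact_mod_cast h
  have h3 : (0 : ℝ) ≤ t := by exact_mod_cast ht
  have h4 : √(t + 1 : ℝ) ≤ 2 * √(a + 1) := by
    rw [Real.sqrt_le_left (by positivity), mul_pow, Real.sq_sqrt (by positivity)]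
    linarith
  unfold wt
  rw [mul_one_div, div_le_div_iff₀ (by positivity) (by positivity)]
  linarith

lemma sum_wt {a b : ℤ} (h : a ≤ b) :
    ∑ u ∈ Icc a b, wt (u - a) ≤ (b - a + 1 : ℝ) * (2 * wt (b - a)) := by
  have e : ∀ t : ℤ, 0 ≤ t → (t + 1 : ℝ) * (2 * wt t) = 2 * √(t + 1) := fun t ht => by
    have h1 : (0 : ℝ) ≤ t := by exact_mod_cast ht
    have h2 : √(t + 1 : ℝ) ≠ 0 := by positivity
    unfold wt
    field_simp
    exact (Real.sq_sqrt (by positivity)).symm
  have := e (b - a) (by omega)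
  push_cast at this
  rw [this]
  induction b, h using Int.leInduction with
  | base => simp [wt]
  | succ b h ih =>
    have h1 : (0 : ℝ) ≤ b - a := by exact_mod_cast sub_nonneg.2 h
    have := e (b - a) (by omega)
    push_cast at this
    have ih := ih this
    rw [← insert_Icc_right_eq_Icc_add_one (by omega), sum_insert (by simp)]
    have h2 : wt (b + 1 - a) = 1 / √(b - a + 2) := by
      unfold wt; push_cast; congr 2; ring
    have h3 : ((b + 1 : ℤ) : ℝ) - a + 1 = b - a + 2 := by push_cast; ring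
    rw [h2, h3]
    have h4 := Real.sq_sqrt (show (0 : ℝ) ≤ b - a + 2 by positivity)
    have h5 := Real.sq_sqrt (show (0 : ℝ) ≤ b - a + 1 by positivity)
    have h6 : 0 < √(b - a + 2 : ℝ) := by positivity
    have h7 : 1 / √(b - a + 2 : ℝ) ≤ 2 * √(b - a + 2) - 2 * √(b - a + 1) := by
      rw [div_le_iff₀ h6]
      nlinarith [sq_nonneg (√(b - a + 2 : ℝ) - √(b - a + 1))]
    linarith

lemma sum_wt' {a b : ℤ} (h : a ≤ b) :
    ∑ u ∈ Icc a b, wt (b - u) ≤ (b - a + 1 : ℝ) * (2 * wt (b - a)) := by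
  refine le_of_eq_of_le ?_ (sum_wt h)
  have hm : ∀ u ∈ Icc a b, a + b - u ∈ Icc a b := fun u hu => by
    rw [mem_Icc] at hu ⊢; omega
  exact sum_nbij' (fun u => a + b - u) (fun u => a + b - u) hm hm (fun _ _ => by ring)
    (fun _ _ => by ring) fun _ _ => by congr 1; ring

lemma card_Icc' {a b : ℤ} (h : a ≤ b) : (#(Icc a b) : ℝ) = b - a + 1 := by
  have : (#(Icc a b) : ℤ) = b + 1 - a := Int.card_Icc_of_le a b (by omega)
  have h1 : ((#(Icc a b) : ℤ) : ℝ) = ((b + 1 - a : ℤ) : ℝ) := by rw [this]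
  push_cast at h1
  linarith

lemma step {n : ℕ} (l : Fin (n + 3) → ℤ) (hl : Antitone l) :
    ∑ m ∈ box l, (gtd (n + 2) m : ℝ) * wt (m 0 - m (Fin.last _)) ≤
      4 * (gtd (n + 3) l * wt (l 0 - l (Fin.last _))) := by
  have a1 : l (Fin.succ 0) ≤ l 0 := hl (Fin.zero_le _)
  have a2 : l (Fin.last (n + 1)).castSucc ≤ l (Fin.succ 0) := hl (by simp [Fin.le_def])
  have a3 : l (Fin.last (n + 2)) ≤ l (Fin.last (n + 1)).castSucc := hl (Fin.le_last _)
  have b1 : ∀ m ∈ box l, l (Fin.succ 0) ≤ m 0 := fun m hm => (mem_box.1 hm 0).1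
  have b2 : ∀ m ∈ box l, m (Fin.last _) ≤ l (Fin.last (n + 1)).castSucc :=
    fun m hm => (mem_box.1 hm _).2
  have hw := wt_nonneg (l 0 - l (Fin.last _))
  rw [gtd_succ, Nat.cast_sum]
  have hd : 0 ≤ ∑ m ∈ box l, (gtd (n + 2) m : ℝ) := by positivity
  by_cases c1 : l 0 - l (Fin.last _) ≤ 3 * (l 0 - l (Fin.succ 0))
  · have h1 := cheb (fun i : Fin (n + 2) => Icc (l i.succ) (l i.castSucc)) 0
      (fun m => gtd (n + 2) m) (fun u => wt (u - l (Fin.succ 0))) fun m hm u hu => by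
        have k1 := b1 m hm
        have k2 := (mem_Icc.1 hu).1
        rcases le_total (m 0) u with k | k
        · refine mul_nonpos_of_nonpos_of_nonneg (sub_nonpos.2 (Nat.cast_le.2 (gtd_mono
            (fun i => by simp) fun i => ?_))) (sub_nonneg.2 (wt_anti (by omega) (by omega)))
          exact le_update_iff.2 ⟨k, fun _ _ => le_rfl⟩ _
        · refine mul_nonpos_of_nonneg_of_nonpos (sub_nonneg.2 (Nat.cast_le.2 (gtd_mono
            (fun i => by simp) fun i => ?_))) (sub_nonpos.2 (wt_anti (by omega) (by omega)))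
          exact update_le_iff.2 ⟨k, fun _ _ => le_rfl⟩ _
    have h2 := mul_le_mul_of_nonneg_left (sum_wt a1) hd
    have h3 := mul_le_mul_of_nonneg_left (wt_two (by omega) (by omega) c1) hd
    have h4 : (0 : ℝ) < l 0 - l (Fin.succ 0) + 1 := by exact_mod_cast (by omega)
    rw [Fin.castSucc_zero, card_Icc' a1] at h1
    have h5 := le_of_mul_le_mul_left ((h1.trans h2).trans_eq (mul_left_comm _ _ _)) h4
    refine (sum_le_sum fun m hm => mul_le_mul_of_nonneg_left (wt_anti (a := m 0 - l (Fin.succ 0))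
      (by have := b1 m hm; omega) (by have := b2 m hm; omega)) (by positivity)).trans ?_
    exact h5.trans (by linarith)
  by_cases c2 : l 0 - l (Fin.last _) ≤ 3 * (l (Fin.last (n + 1)).castSucc - l (Fin.last _))
  · have h1 := cheb (fun i : Fin (n + 2) => Icc (l i.succ) (l i.castSucc)) (Fin.last _)
      (fun m => gtd (n + 2) m) (fun u => wt (l (Fin.last (n + 1)).castSucc - u))
      fun m hm u hu => by
        have k1 := b2 m hm
        have k2 := (mem_Icc.1 hu).2
        rcases le_total (m (Fin.last _)) u with k | k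
        · refine mul_nonpos_of_nonneg_of_nonpos (sub_nonneg.2 (Nat.cast_le.2 (gtd_mono
            (fun i => ?_) fun i => by simp))) (sub_nonpos.2 (wt_anti (by omega) (by omega)))
          exact le_update_iff.2 ⟨k, fun _ _ => le_rfl⟩ _
        · refine mul_nonpos_of_nonpos_of_nonneg (sub_nonpos.2 (Nat.cast_le.2 (gtd_mono
            (fun i => ?_) fun i => by simp))) (sub_nonneg.2 (wt_anti (by omega) (by omega)))
          exact update_le_iff.2 ⟨k, fun _ _ => le_rfl⟩ _
    have h2 := mul_le_mul_of_nonneg_left (sum_wt' a3) hd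
    have h3 := mul_le_mul_of_nonneg_left (wt_two (by omega) (by omega) c2) hd
    have h4 : (0 : ℝ) < l (Fin.last (n + 1)).castSucc - l (Fin.last (n + 2)) + 1 := by
      exact_mod_cast (by omega)
    rw [Fin.succ_last, card_Icc' a3] at h1
    have h5 := le_of_mul_le_mul_left ((h1.trans h2).trans_eq (mul_left_comm _ _ _)) h4
    refine (sum_le_sum fun m hm => mul_le_mul_of_nonneg_left
      (wt_anti (a := l (Fin.last (n + 1)).castSucc - m (Fin.last _))
      (by have := b2 m hm; omega) (by have := b1 m hm; omega)) (by positivity)).trans ?_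
    exact h5.trans (by linarith)
  have h3 := mul_le_mul_of_nonneg_left (wt_two (t := l 0 - l (Fin.last _))
    (a := l (Fin.succ 0) - l (Fin.last (n + 1)).castSucc) (by omega) (by omega) (by omega)) hd
  refine (sum_le_sum fun m hm => mul_le_mul_of_nonneg_left
    (wt_anti (a := l (Fin.succ 0) - l (Fin.last (n + 1)).castSucc) (by omega)
    (by have := b1 m hm; have := b2 m hm; omega)) (by positivity)).trans ?_
  rw [← sum_mul]
  nlinarith [mul_nonneg hd hw]

lemma tele (g : ℤ → ℂ) {a b : ℤ} (h : a ≤ b) :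
    ∑ u ∈ Icc a b, (g (u + 1) - g u) = g (b + 1) - g a := by
  induction b, h using Int.leInduction with
  | base => simp
  | succ b h ih =>
    rw [← insert_Icc_right_eq_Icc_add_one (by omega), sum_insert (by simp), ih]
    ring

lemma sum_two {M : Type} [AddCommMonoid M] (l : Fin 2 → ℤ) (f : (Fin 1 → ℤ) → M) :
    ∑ m ∈ box l, f m = ∑ u ∈ Icc (l 1) (l 0), f fun _ => u :=
  sum_nbij' (fun m => m 0) (fun u _ => u) (fun _ hm => mem_Icc.2 (mem_box.1 hm 0))
    (fun u hu => mem_box.2 fun i => by rw [Subsingleton.elim i 0]; exact mem_Icc.1 hu)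
    (fun m _ => funext fun i => by rw [Subsingleton.elim i 0]) (fun _ _ => rfl)
    fun m _ => by congr 1; exact funext fun i => by rw [Subsingleton.elim i 0]

lemma base (l : Fin 2 → ℤ) (hl : Antitone l) (x : Fin 2 → ℂ) (hx : ∀ i, ‖x i‖ = 1) :
    ‖x 0 - x 1‖ * ‖schur 2 l x‖ ≤ 2 * (gtd 2 l * wt (l 0 - l 1)) := by
  have h : l 1 ≤ l 0 := hl (by simp)
  have x0 : ∀ i, x i ≠ 0 := fun i e => by simpa [e] using hx i
  have e1 : (x 0 - x 1) * schur 2 l x = x 0 ^ (l 0 + 1) * x 1 ^ (l 0 + l 1 + 1 - (l 0 + 1)) -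
      x 0 ^ l 1 * x 1 ^ (l 0 + l 1 + 1 - l 1) := by
    rw [schur_succ, sum_two, mul_sum]
    refine Eq.trans (sum_congr rfl fun u _ => ?_)
      (tele (fun u => x 0 ^ u * x 1 ^ (l 0 + l 1 + 1 - u)) h)
    have e : l 0 + l 1 + 1 - u = l 0 + l 1 - u + 1 := by ring
    have e' : l 0 + l 1 + 1 - (u + 1) = l 0 + l 1 - u := by ring
    simp only [e, e', zpow_add_one₀ (x0 _)]
    simp [schur]
    ring
  have e2 : (gtd 2 l : ℝ) = l 0 - l 1 + 1 := by
    rw [gtd_succ, sum_two, ← card_Icc' h]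
    simp [gtd, box]
  have h1 : (0 : ℝ) ≤ l 0 - l 1 := by exact_mod_cast sub_nonneg.2 h
  have e3 : 1 ≤ gtd 2 l * wt (l 0 - l 1) := by
    rw [e2, wt, mul_one_div, le_div_iff₀ (by push_cast; positivity), one_mul,
      Real.sqrt_le_left (by positivity)]
    push_cast
    nlinarith
  rw [← norm_mul, e1]
  refine (norm_sub_le _ _).trans ?_
  simp only [norm_mul, norm_zpow, hx, one_zpow]
  linarith

lemma schur_wt (n : ℕ) : ∀ (l : Fin (n + 2) → ℤ) (x : Fin (n + 2) → ℂ), Antitone l →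
    (∀ i, ‖x i‖ = 1) → ‖x 0 - x 1‖ * ‖schur (n + 2) l x‖ ≤
      2 * 4 ^ n * (gtd (n + 2) l * wt (l 0 - l (Fin.last _))) := by
  induction n with
  | zero => intro l x hl hx; simpa using base l hl x hx
  | succ n ih =>
    intro l x hl hx
    rw [schur_succ]
    refine (mul_le_mul_of_nonneg_left (norm_sum_le _ _) (norm_nonneg _)).trans ?_
    rw [mul_sum]
    refine (sum_le_sum (g := fun m => 2 * 4 ^ n * ((gtd (n + 2) m : ℝ) *
      wt (m 0 - m (Fin.last _)))) fun m hm => ?_).trans ?_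
    · rw [norm_mul, norm_zpow, hx, one_zpow, mul_one]
      exact ih m (fun i => x i.castSucc) (anti_box hm) fun i => hx _
    · rw [← mul_sum, pow_succ, ← mul_assoc 2, mul_assoc _ 4]
      exact mul_le_mul_of_nonneg_left (step l hl) (by positivity)

theorem schur_bound {n : ℕ} (l : Fin (n + 2) → ℤ) (x : Fin (n + 2) → ℂ) (hl : Antitone l)
    (hx : ∀ i, ‖x i‖ = 1) : ‖x 0 - x 1‖ * ‖schur (n + 2) l x‖ ≤
      2 * 4 ^ n * (gtd (n + 2) l : ℝ) ^ (1 - 1 / (2 * ((n + 2 : ℕ) : ℝ) ^ 2)) := by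
  refine (schur_wt n l x hl hx).trans (mul_le_mul_of_nonneg_left ?_ (by positivity))
  obtain ⟨L, hL⟩ := Int.eq_ofNat_of_zero_le (sub_nonneg.2 (hl (Fin.zero_le (Fin.last _))))
  have h1 : (gtd (n + 2) l : ℝ) ≤ (L + 1) ^ ((n + 2) * (n + 2)) := by
    exact_mod_cast gtd_le (l (Fin.last _)) L _ l fun i =>
      ⟨hl (Fin.le_last _), by have := hl (Fin.zero_le i); omega⟩
  have h2 : (0 : ℝ) < gtd (n + 2) l := by exact_mod_cast gtd_pos _ l hl
  rw [Real.rpow_sub h2, Real.rpow_one, hL, wt, mul_one_div]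
  refine div_le_div_of_nonneg_left h2.le (by positivity) ?_
  refine (Real.rpow_le_rpow h2.le h1 (by positivity)).trans (le_of_eq ?_)
  rw [← Real.rpow_natCast, ← Real.rpow_mul (by positivity), Real.sqrt_eq_rpow]
  push_cast
  congr 1
  field_simp

end Pool.Agent.P.MP_7cb106_nt.As
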