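import Pool.Agent.P.MP_7cb106_nt.As.Smooth

/-! The three steps put together. -/

set_option autoImplicit false
set_option linter.unusedSectionVars false

namespace Pool.Agent.P.MP_7cb106_nt.As

open Module IsLocalRing
open LinearMap (trace)
open Matrix.GeneralLinearGroup (scalar)
open scoped TensorProduct

theorem glue (hW : S_WEYL) (hC : S_CMP) (p n : ℕ) [Fact p.Prime] (hn : 0 < n) (A O F J W : Type)
    [CommRing A] [IsDomain A] [IsDiscreteValuationRing A] [IsAdicComplete (maximalIdeal A) A]
    [Finite (ResidueField A)] [CharP (ResidueField A) p]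
    [CommRing O] [Algebra O ℂ] (hO : Function.Injective (algebraMap O ℂ))
    [Field F] [Finite F] [CharP F p] [Algebra O F] [Fintype J] [Nonempty J] (φ : J → A →+* O)
    [AddCommGroup W] [Module F W] (a : Representation F (GL (Fin n) A) W) (M : ℕ)
    (hM : HasMult ((Representation.leftRegular F (GL (Fin n) (ResidueField A))).comp (red A n))
      a M) :
    ∃ C : ℝ, ∀ (U V : Type) [AddCommGroup U] [Module O U] [Module.Free O U] [Module.Finite O U]
      [AddCommGroup V] [Module O V] [Module.Free O V] [Module.Finite O V]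
      (σ : Representation O (GL (Fin n) A) U) (L : Representation O (GL (Fin n) A) V)
      (l : J → Fin n → ℤ) (m : ℕ),
      Level σ → (extend ℂ σ).IsIrreducible →
      (∀ j, Antitone (l j)) → Weyl φ l L → Level (extend F L) →
      (∀ z : Aˣ, ∃ c : F, extend F (σ.tprod L) (scalar (Fin n) z) = c • 1 ∧
        a (scalar (Fin n) z) = c • 1) →
      HasMult (extend F (σ.tprod L)) a m →
      |(m : ℝ) - (finrank O U * finrank O V : ℝ) * (((Nat.card (ResidueField A) : ℝ) - 1) * M /
          Nat.card (GL (Fin n) (ResidueField A)))| ≤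
        C * (finrank O U * finrank O V : ℝ) ^ (1 - 1 / (7 * (n : ℝ) ^ 2)) := by
  obtain ⟨N, B, hN0, hpN, hB, h⟩ := hC p A O F W (φ (Classical.arbitrary J)) n a M hn hO hM
  obtain ⟨C, hC0, hW⟩ := hW A O J φ n N hN0
  have hN : IsUnit (N : A) := by
    by_contra e
    refine hpN ((CharP.cast_eq_zero_iff (ResidueField A) p N).1 ?_)
    rw [← map_natCast (residue A), residue_eq_zero_iff]
    exact e
  have : Nontrivial O := (algebraMap O ℂ).domain_nontrivial
  refine ⟨B * (Nat.card (ResidueField A) * C), fun U V _ _ _ _ _ _ _ _ σ L l m h1 h2 h3 h4 h5 h6 h7 => ?_⟩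
  obtain ⟨hV, hW⟩ := hW V l L h3 h4
  have hl : Level (extend F (σ.tprod L)) := by
    obtain ⟨m₁, a₁⟩ := h1
    obtain ⟨m₂, a₂⟩ := h5
    refine ⟨m₁ + m₂, fun g hg => ?_⟩
    have e1 := a₁ g fun i j => Ideal.pow_le_pow_right (Nat.le_add_right _ _) (hg i j)
    have e2 := a₂ g fun i j => Ideal.pow_le_pow_right (Nat.le_add_left _ _) (hg i j)
    change (TensorProduct.map (σ g) (L g)).baseChange F = 1
    rw [e1]
    ext u v
    have := congrArg (fun f : Module.End F (F ⊗[O] V) =>
      (TensorProduct.mk O U V u).baseChange F (f (1 ⊗ₜ v))) e2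
    simpa [extend] using this
  have := h (U ⊗[O] V) (σ.tprod L) m (Nat.card (ResidueField A) * C *
    (finrank O U * finrank O V : ℝ) ^ (1 - 1 / (7 * (n : ℝ) ^ 2))) hl h6 h7 (by positivity)
    fun t ht hs => by
      have e1 := smooth_bound hn hN0 hN (extend ℂ σ) h2 (h1.imp fun m a g hg => by
        change (σ g).baseChange ℂ = 1
        rw [a g hg, LinearMap.baseChange_one]) ht hs
      change ‖trace ℂ _ ((σ t).baseChange ℂ)‖ ≤ _ at e1
      rw [LinearMap.trace_baseChange, finrank_baseChange] at e1
      have e2 := (hW t ht hs).trans (mul_le_mul_of_nonneg_left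
        (Real.rpow_le_rpow_of_exponent_le (Nat.one_le_cast.2 hV)
          (z := 1 - 1 / (7 * (n : ℝ) ^ 2)) (by gcongr; norm_num)) hC0)
      rw [Representation.tprod_apply, LinearMap.trace_tensorProduct', map_mul, norm_mul,
        Real.mul_rpow (Nat.cast_nonneg _) (Nat.cast_nonneg _), mul_mul_mul_comm]
      exact mul_le_mul e1 e2 (norm_nonneg _) (by positivity)
  rwa [finrank_tensorProduct, Nat.cast_mul, ← mul_assoc] at this

end Pool.Agent.P.MP_7cb106_nt.As
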