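import Pool.Agent.P.MP_7cb106_nt.As.Old

/-! Traces of idempotents and the decomposition under a finite abelian group. -/

set_option autoImplicit false
set_option linter.unusedSectionVars false

namespace Pool.Agent.P.MP_7cb106_nt.As

open Module Finset LinearMap
open scoped Classical

variable {V : Type} [AddCommGroup V] [Module ℂ V] [FiniteDimensional ℂ V]

theorem tr_le {f : Module.End ℂ V} {N : ℕ} (hN : 0 < N) (h : f ^ N * f ^ N = f ^ N) :
    ‖trace ℂ V f‖ ≤ (trace ℂ V (f ^ N)).re := by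
  have h1 := Old.all_POW ℂ V f 1
  rw [pow_one] at h1
  rw [h1, Old.all_POW ℂ V f N]
  have key : ∀ r ∈ f.charpoly.roots, ‖r ^ 1‖ ≤ (r ^ N).re := by
    intro r hr
    obtain ⟨v, hv⟩ := ((Module.End.hasEigenvalue_iff_isRoot_charpoly f r).2
      (Polynomial.isRoot_of_mem_roots hr)).exists_hasEigenvector
    have e1 : (f ^ N) v = r ^ N • v := hv.pow_apply N
    have e2 := congrArg (fun g : Module.End ℂ V => g v) h
    simp only [Module.End.mul_apply, e1, map_smul, smul_smul] at e2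
    have e3 : r ^ N * r ^ N = r ^ N := smul_left_injective ℂ hv.2 e2
    rw [pow_one]
    by_cases h0 : r ^ N = 0
    · rw [h0, pow_eq_zero_iff hN.ne' |>.1 h0]; simp
    · have e4 : r ^ N = 1 := mul_left_cancel₀ h0 (e3.trans (mul_one _).symm)
      rw [e4, Complex.norm_eq_one_of_pow_eq_one e4 hN.ne']; simp
  generalize f.charpoly.roots = s at key
  induction s using Multiset.induction_on with
  | empty => simp
  | cons a s ih =>
    rw [Multiset.map_cons, Multiset.map_cons, Multiset.sum_cons, Multiset.sum_cons, Complex.add_re]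
    exact (norm_add_le _ _).trans (add_le_add (key a (Multiset.mem_cons_self _ _))
      (ih fun r hr => key r (Multiset.mem_cons_of_mem hr)))

theorem tr_le_dim {f : Module.End ℂ V} {N : ℕ} (hN : 0 < N) (h : f ^ N = 1) :
    ‖trace ℂ V f‖ ≤ finrank ℂ V := by
  have := tr_le hN (f := f) (by rw [h, one_mul])
  rwa [h, trace_one, Complex.natCast_re] at this

variable {Q : Type} [AddCommGroup Q] [Fintype Q]

/-- an action of the additive group `Q` -/
structure Act (α : Q → Module.End ℂ V) : Prop where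
  zero : α 0 = 1
  add : ∀ x y, α (x + y) = α x * α y

/-- the projection on the part where `Q` acts by `θ` -/
noncomputable def pr (α : Q → Module.End ℂ V) (θ : AddChar Q ℂ) : Module.End ℂ V :=
  (Fintype.card Q : ℂ)⁻¹ • ∑ x, θ (-x) • α x

/-- its rank -/
noncomputable def rk (α : Q → Module.End ℂ V) (θ : AddChar Q ℂ) : ℝ := (trace ℂ V (pr α θ)).re

variable {α : Q → Module.End ℂ V}

theorem cardQ : (Fintype.card Q : ℂ) ≠ 0 := Nat.cast_ne_zero.2 Fintype.card_ne_zero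

theorem Act.sum (h : Act α) : ∑ θ, pr α θ = 1 := by
  unfold pr
  rw [← smul_sum, sum_comm]
  simp only [← sum_smul, AddChar.sum_apply_eq_ite, neg_eq_zero, ite_smul, zero_smul, sum_ite_eq',
    mem_univ, if_true, h.zero, smul_smul, inv_mul_cancel₀ (cardQ (Q := Q)), one_smul]

theorem Act.mul (h : Act α) (θ : AddChar Q ℂ) (y : Q) : α y * pr α θ = θ y • pr α θ := by
  unfold pr
  rw [mul_smul_comm, smul_comm (θ y), mul_sum, smul_sum (r := θ y)]
  congr 1
  refine Fintype.sum_equiv (Equiv.addLeft y) _ _ fun x => ?_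
  rw [mul_smul_comm, ← h.add, Equiv.coe_addLeft, smul_smul, ← AddChar.map_add_eq_mul]
  congr 2
  exact (by abel : -x = y + -(y + x))

theorem Act.pr_mul (h : Act α) (θ θ' : AddChar Q ℂ) :
    pr α θ' * pr α θ = if θ' = θ then pr α θ else 0 := by
  have e : pr α θ' * pr α θ = ((Fintype.card Q : ℂ)⁻¹ * ∑ x, (θ - θ') x) • pr α θ := by
    conv_lhs => rw [pr]
    rw [smul_mul_assoc, sum_mul, ← smul_smul, sum_smul]
    congr 1
    refine sum_congr rfl fun x _ => ?_
    rw [smul_mul_assoc, h.mul, smul_smul, AddChar.sub_apply, mul_comm]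
  rw [e, AddChar.sum_eq_ite]
  by_cases h0 : θ' = θ
  · rw [if_pos h0, if_pos (sub_eq_zero.2 h0.symm), inv_mul_cancel₀ cardQ, one_smul]
  · rw [if_neg h0, if_neg fun e => h0 (sub_eq_zero.1 e).symm, mul_zero, zero_smul]

theorem Act.idem (h : Act α) (θ : AddChar Q ℂ) : pr α θ * pr α θ = pr α θ := by
  rw [h.pr_mul, if_pos rfl]

theorem Act.rk_nonneg (h : Act α) (θ : AddChar Q ℂ) : 0 ≤ rk α θ := by
  have := tr_le (f := pr α θ) one_pos (by rw [pow_one, h.idem])
  rw [pow_one] at this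
  exact (norm_nonneg _).trans this

theorem Act.rk_sum (h : Act α) : ∑ θ, rk α θ = finrank ℂ V := by
  unfold rk
  rw [← Complex.re_sum, ← map_sum, h.sum, trace_one, Complex.natCast_re]

theorem pr_conj {u : Module.End ℂ V} {c : Q ≃+ Q} (hu : ∀ x, u * α x = α (c x) * u)
    {θ θ' : AddChar Q ℂ} (hθ : ∀ x, θ' (c x) = θ x) : u * pr α θ = pr α θ' * u := by
  unfold pr
  rw [mul_smul_comm, smul_mul_assoc, mul_sum, sum_mul]
  congr 1
  refine Fintype.sum_equiv c.toEquiv _ _ fun x => ?_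
  rw [mul_smul_comm, smul_mul_assoc, hu, ← hθ, map_neg]
  rfl

theorem rk_conj {u u' : Module.End ℂ V} (huu : u * u' = 1) (huu' : u' * u = 1) {c : Q ≃+ Q}
    (hu : ∀ x, u * α x = α (c x) * u) {θ θ' : AddChar Q ℂ} (hθ : ∀ x, θ' (c x) = θ x) :
    rk α θ' = rk α θ := by
  unfold rk
  rw [← mul_one (pr α θ'), ← huu, ← mul_assoc, ← pr_conj hu hθ, trace_mul_comm, ← mul_assoc, huu',
    one_mul]

theorem Act.tr_le (h : Act α) {u : Module.End ℂ V} {N : ℕ} (hN : 0 < N) (huN : u ^ N = 1)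
    {c : Q ≃+ Q} (hu : ∀ x, u * α x = α (c x) * u) :
    ‖trace ℂ V u‖ ≤ ∑ θ ∈ univ.filter (fun θ : AddChar Q ℂ => ∀ x, θ (c x) = θ x), rk α θ := by
  have e : trace ℂ V u = ∑ θ : AddChar Q ℂ, trace ℂ V (u * pr α θ) := by
    rw [← map_sum, ← mul_sum, h.sum, mul_one]
  rw [e, sum_filter]
  refine (norm_sum_le _ _).trans (sum_le_sum fun θ _ => ?_)
  split_ifs with hθ
  · have hc : Commute u (pr α θ) := pr_conj hu hθ
    have e1 : (u * pr α θ) ^ N = pr α θ := by
      rw [hc.mul_pow, huN, one_mul]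
      exact (IsIdempotentElem.pow_eq (h.idem θ) hN.ne')
    have := As.tr_le hN (f := u * pr α θ) (by rw [e1, h.idem])
    rwa [e1] at this
  · let θ' : AddChar Q ℂ := θ.compAddMonoidHom c.symm.toAddMonoidHom
    have h1 : ∀ x, θ' (c x) = θ x := fun x => by simp [θ']
    have h2 : θ ≠ θ' := fun e => hθ fun x => by rw [← h1 x, ← e]
    have : trace ℂ V (u * pr α θ) = 0 := by
      rw [← h.idem θ, ← mul_assoc, trace_mul_comm, pr_conj hu h1, ← mul_assoc, h.pr_mul, if_neg h2,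
        zero_mul, map_zero]
    rw [this, norm_zero]

/-- counting -/
theorem Act.count (h : Act α) (P : AddChar Q ℂ → Prop) [DecidablePred P] (w : ℕ)
    (T : AddChar Q ℂ → Finset (AddChar Q ℂ))
    (h1 : ∀ θ, P θ → pr α θ ≠ 0 → w ≤ (T θ).card ∧ ∀ θ' ∈ T θ, rk α θ' = rk α θ)
    (h2 : ∀ θ θ', P θ → P θ' → pr α θ ≠ 0 → pr α θ' ≠ 0 → θ ≠ θ' → Disjoint (T θ) (T θ')) :
    w * ∑ θ ∈ univ.filter P, rk α θ ≤ finrank ℂ V := by
  let S := (univ.filter P).filter fun θ => pr α θ ≠ 0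
  have hS : ∀ θ ∈ S, P θ ∧ pr α θ ≠ 0 := fun θ hθ =>
    ⟨(mem_filter.1 (mem_filter.1 hθ).1).2, (mem_filter.1 hθ).2⟩
  have e : ∑ θ ∈ univ.filter P, rk α θ = ∑ θ ∈ S, rk α θ := by
    refine (sum_filter_of_ne (p := fun θ => pr α θ ≠ 0) fun θ _ h0 e => h0 ?_).symm
    rw [rk, e, map_zero, Complex.zero_re]
  rw [e, mul_sum, ← h.rk_sum]
  calc ∑ θ ∈ S, w * rk α θ ≤ ∑ θ ∈ S, ∑ θ' ∈ T θ, rk α θ' := by
        refine sum_le_sum fun θ hθ => ?_
        obtain ⟨a, b⟩ := h1 θ (hS θ hθ).1 (hS θ hθ).2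
        rw [sum_congr rfl b, sum_const, nsmul_eq_mul]
        exact mul_le_mul_of_nonneg_right (Nat.cast_le.2 a) (h.rk_nonneg θ)
    _ = ∑ θ' ∈ S.biUnion T, rk α θ' := (sum_biUnion fun θ hθ θ' hθ' hne =>
        h2 θ θ' (hS θ hθ).1 (hS θ' hθ').1 (hS θ hθ).2 (hS θ' hθ').2 hne).symm
    _ ≤ _ := sum_le_sum_of_subset_of_nonneg (subset_univ _) fun θ _ _ => h.rk_nonneg θ

end Pool.Agent.P.MP_7cb106_nt.As
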