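import Pool.Agent.P.MP_7cb106_nt.As.Func

/-! Monomial matrices: the regular representation and its parts under a central subgroup. -/

set_option autoImplicit false

namespace Pool.Agent.P.MP_7cb106_nt.As

open Finset Polynomial Module Function

variable {O F Γ : Type} [CommRing O] [Field F] [Algebra O F] [Group Γ] [Fintype Γ]

omit [Field F] [Algebra O F] [Fintype Γ] in
lemma ind {Z : Type} [Group Z] (s : Z →* Γ) (hs : Injective s) (hc : ∀ z g, s z * g = g * s z)
    (χ : Z →* O) [Fintype (Γ ⧸ s.range)] [DecidableEq (Γ ⧸ s.range)] :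
    ∃ ρ : Γ →* Matrix (Γ ⧸ s.range) (Γ ⧸ s.range) O,
      (∀ z, ρ (s z) = χ z • 1) ∧ ∀ g, g ∉ s.range → (ρ g).trace = 0 := by
  let θ : Γ → O := Function.extend s χ 0
  have t0 : ∀ h, h ∉ s.range → θ h = 0 := fun h hh => extend_apply' _ _ _ hh
  have t1 : ∀ z h, θ (s z * h) = χ z * θ h := fun z h => by
    by_cases hh : h ∈ s.range
    · obtain ⟨w, rfl⟩ := hh
      simp only [θ, ← map_mul, hs.extend_apply]
    · rw [t0 h hh, t0 _ fun k => hh ((s.range.mul_mem_cancel_left ⟨z, rfl⟩).1 k), mul_zero]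
  have t2 : θ 1 = 1 := by rw [← map_one s]; simp only [θ, hs.extend_apply, map_one χ]
  let M : Γ → Matrix (Γ ⧸ s.range) (Γ ⧸ s.range) O := fun g x y => θ (x.out⁻¹ * g * y.out)
  have m1 : M 1 = 1 := Matrix.ext fun x y => by
    by_cases e : x = y
    · rw [e, Matrix.one_apply_eq]; simp [M, t2]
    · rw [Matrix.one_apply_ne e]
      refine t0 _ fun k => e ?_
      rw [mul_one, ← QuotientGroup.eq, QuotientGroup.out_eq', QuotientGroup.out_eq'] at k
      exact k
  refine ⟨⟨⟨M, m1⟩, fun g h => Matrix.ext fun x w => ?_⟩, fun z => Matrix.ext fun x y => ?_,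
    fun g hg => sum_eq_zero fun x _ => t0 _ ?_⟩
  · have k : ∀ y : Γ ⧸ s.range, x.out⁻¹ * g * y.out ∈ s.range ↔ ↑(g⁻¹ * x.out) = y := fun y => by
      conv_rhs => rw [← QuotientGroup.out_eq' y, QuotientGroup.eq, mul_inv_rev, inv_inv]
    obtain ⟨z, hz⟩ := (k _).2 rfl
    rw [Matrix.mul_apply, sum_eq_single_of_mem _ (mem_univ ↑(g⁻¹ * x.out)) fun y _ hy => by
      simp only [M, t0 _ fun e => hy ((k y).1 e).symm, zero_mul]]
    simp only [M]
    rw [← hz, ← mul_one (s z), t1, t2, mul_one, ← t1, hz]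
    congr 1
    group
  · rw [← m1]
    change θ _ = χ z * θ _
    rw [← t1, ← hc, mul_one, mul_assoc]
  · rintro ⟨z, hz⟩
    refine hg ⟨z, ?_⟩
    have := hc z x.out
    rw [hz] at this
    rw [hz]
    calc x.out⁻¹ * g * x.out = x.out⁻¹ * g * x.out * x.out * x.out⁻¹ := by group
      _ = g := by rw [this]; group

lemma reg : ∃ (ι : Type) (_ : Fintype ι) (_ : DecidableEq ι) (ρ : Γ →* Matrix ι ι O),
    (ρ 1).trace = Fintype.card Γ ∧ (∀ g, g ≠ 1 → (ρ g).trace = 0) ∧
    ∀ g, (Representation.leftRegular F Γ g).charpoly = (ρ g).charpoly.map (algebraMap O F) := by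
  classical
  have e : ∀ (S : Type) [CommRing S] (g x y : Γ), LinearMap.toMatrix (MonoidAlgebra.basis Γ S)
      (MonoidAlgebra.basis Γ S) (Representation.leftRegular S Γ g) x y =
        if g * y = x then 1 else 0 := fun S _ g x y => by
    rw [LinearMap.toMatrix_apply, MonoidAlgebra.basis_apply, Representation.ofMulAction_single,
      ← MonoidAlgebra.basis_apply, Basis.repr_self, Finsupp.single_apply, smul_eq_mul]
  refine ⟨Γ, _, _, (LinearMap.toMatrixAlgEquiv (MonoidAlgebra.basis Γ O)).toMonoidHom.comp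
    (Representation.leftRegular O Γ), by rw [map_one, Matrix.trace_one], fun g hg => ?_,
    fun g => ?_⟩
  · change ∑ x, LinearMap.toMatrix _ _ _ x x = _
    simp [e, hg]
  · rw [← Matrix.charpoly_map, ← LinearMap.charpoly_toMatrix _ (MonoidAlgebra.basis Γ F)]
    congr 1
    ext x y
    change _ = algebraMap O F (LinearMap.toMatrix _ _ _ x y)
    simp only [e]
    split_ifs <;> simp

omit [Group Γ] [Fintype Γ] in
lemma cent [Algebra O ℂ] (hO : Injective (algebraMap O ℂ)) {ι : Type} [Fintype ι] [DecidableEq ι]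
    [Nonempty ι] {B : Matrix ι ι O} {e : ℕ} [NeZero e] (hB : B ^ e = 1) {η : O}
    (h1 : IsPrimitiveRoot (algebraMap O ℂ η) e) (h2 : IsPrimitiveRoot (algebraMap O F η) e)
    {c : F} (hc : (algebraMap O F).mapMatrix B = c • 1) : ∃ r < e, algebraMap O F η ^ r = c ∧
      ∀ i, algebraMap O ℂ (B ^ i).trace = Fintype.card ι * (algebraMap O ℂ η ^ i) ^ r := by
  let B' := (algebraMap O ℂ).mapMatrix B
  have hB' : B' ^ e = 1 := by rw [← map_pow, hB, map_one]
  have e1 : B.charpoly =
      ∏ j : Fin e, (X - C (η ^ j.1)) ^ B'.charpoly.roots.count (algebraMap O ℂ η ^ j.1) :=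
    map_injective _ hO (by
      rw [← Matrix.charpoly_map]
      refine (cp_count hB' h1).trans ?_
      simp [Polynomial.map_prod])
  have e2 : ∀ μ ∈ B'.charpoly.roots, ∃ j < e, algebraMap O ℂ η ^ j = μ ∧
      algebraMap O F η ^ j = c := fun μ hμ => by
    obtain ⟨j, hj, rfl⟩ := h1.eq_pow_of_pow_eq_one (root_pow hB' hμ)
    refine ⟨j, hj, rfl, ?_⟩
    have e3 : ((algebraMap O F).mapMatrix B).charpoly.eval (algebraMap O F η ^ j) = 0 := by
      rw [RingHom.mapMatrix_apply, Matrix.charpoly_map, e1, Polynomial.map_prod, eval_prod]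
      exact prod_eq_zero (mem_univ ⟨j, hj⟩) (by
        rw [Polynomial.map_pow, eval_pow]
        exact (pow_eq_zero_iff (Multiset.count_ne_zero.2 hμ)).2 (by simp))
    rw [hc, Matrix.eval_charpoly, Matrix.scalar_apply, ← Matrix.smul_one_eq_diagonal, ← sub_smul,
      Matrix.det_smul, Matrix.det_one, mul_one] at e3
    exact sub_eq_zero.1 (pow_eq_zero_iff Fintype.card_ne_zero |>.1 e3)
  have e4 : B'.charpoly.roots.card = Fintype.card ι := by
    rw [← (IsAlgClosed.splits B'.charpoly).natDegree_eq_card_roots]; simp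
  obtain ⟨μ, hμ⟩ := Multiset.card_pos_iff_exists_mem.1 (e4 ▸ Fintype.card_pos)
  obtain ⟨r, hr, rfl, r2⟩ := e2 μ hμ
  refine ⟨r, hr, r2, fun i => ?_⟩
  have e5 : B'.charpoly.roots = Multiset.replicate (Fintype.card ι) (algebraMap O ℂ η ^ r) :=
    Multiset.eq_replicate.2 ⟨e4, fun μ hμ => by
      obtain ⟨j, hj, rfl, j2⟩ := e2 μ hμ
      rw [h2.pow_inj hj hr (j2.trans r2.symm)]⟩
  have e6 : algebraMap O ℂ (B ^ i).trace = (B' ^ i).trace := by
    rw [← map_pow, AddMonoidHom.map_trace]; rfl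
  rw [e6, tr_pow, e5, Multiset.map_replicate, Multiset.sum_replicate, nsmul_eq_mul, ← pow_mul,
    ← pow_mul, mul_comm r]

end Pool.Agent.P.MP_7cb106_nt.As
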