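import Pool.Agent.P.MP_7cb106_nt.T.IfaceA

/-! Characteristic polynomials and Brauer-Nesbitt (the steps QUO POW SER IND BN JH of the first library, copied). -/

section TQUO
set_option autoImplicit false

namespace Pool.Agent.P.MP_7cb106_nt.As.Old

open Pool.Agent.P.MP_7cb106_nt.T

open Matrix Polynomial Module NumberField
open scoped TensorProduct ComplexOrder

open Module.Basis in
theorem p_QUO :
    S_QUO := by
  intro R V _ _ _ _ e W he
  classical
  let bW := Module.finBasis R W
  let bQ := Module.finBasis R (V ⧸ W)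
  let b := sumQuot bW bQ
  let A := LinearMap.toMatrix bW bW (e.restrict he)
  let B : Matrix (Fin (finrank R W)) (Fin (finrank R (V ⧸ W))) R := Matrix.of fun i l =>
    ((sumQuot bW bQ).repr (e ((sumQuot bW bQ) (Sum.inr l)))) (Sum.inl i)
  let D := LinearMap.toMatrix bQ bQ (W.mapQ W e he)
  suffices LinearMap.toMatrix b b e = Matrix.fromBlocks A B 0 D by
    rw [← LinearMap.charpoly_toMatrix e b, this, ← LinearMap.charpoly_toMatrix _ bW,
      ← LinearMap.charpoly_toMatrix _ bQ, Matrix.charpoly_fromBlocks_zero₂₁]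
  ext u v
  cases u with
  | inl i =>
    cases v with
    | inl k =>
      simp only [b, sumQuot_inl, Matrix.fromBlocks_apply₁₁, A, LinearMap.toMatrix_apply]
      apply sumQuot_repr_inl_of_mem
    | inr l => simp [b, LinearMap.toMatrix_apply, Matrix.fromBlocks_apply₁₂, B]
  | inr j =>
    cases v with
    | inl k =>
      suffices W.mkQ (e (bW k)) = 0 by simp [LinearMap.toMatrix_apply, b, this]
      rw [← LinearMap.mem_ker, Submodule.ker_mkQ]
      exact he _ (Submodule.coe_mem (bW k))
    | inr l =>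
      simp only [LinearMap.toMatrix_apply, sumQuot_repr_inr,
        Matrix.fromBlocks_apply₂₂, b, D]
      rw [← sumQuot_inr bW bQ l, W.mapQ_apply]
      simp

end Pool.Agent.P.MP_7cb106_nt.As.Old

end TQUO

section TPOW
set_option autoImplicit false

namespace Pool.Agent.P.MP_7cb106_nt.As.Old

open Pool.Agent.P.MP_7cb106_nt.T

open Matrix Polynomial Module NumberField
open scoped TensorProduct ComplexOrder

theorem pow_line {C U : Type} [Field C] [AddCommGroup U] [Module C U] [FiniteDimensional C U]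
    (h : finrank C U = 1) (g : U →ₗ[C] U) (μ : C) (hg : ∀ x, g x = μ • x) :
    g.charpoly.roots = {μ} := by
  let b : Basis (Fin 1) C U := Module.finBasisOfFinrankEq C U h
  have e : LinearMap.toMatrix b b g = Matrix.diagonal fun _ => μ := by
    ext i j
    simp [LinearMap.toMatrix_apply, hg, Subsingleton.elim i j]
  rw [← LinearMap.charpoly_toMatrix g b, e, Matrix.charpoly_diagonal]
  simp

theorem pow_roots (hQUO : S_QUO) {C : Type} [Field C] [IsAlgClosed C] (i n : ℕ) :
    ∀ (V : Type) [AddCommGroup V] [Module C V] [FiniteDimensional C V], finrank C V = n →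
      ∀ f : V →ₗ[C] V, (f ^ i).charpoly.roots = f.charpoly.roots.map (· ^ i) := by
  induction n with
  | zero =>
    intro V _ _ _ h f
    have e : ∀ g : V →ₗ[C] V, g.charpoly = 1 := fun g =>
      eq_one_of_monic_natDegree_zero g.charpoly_monic (by rw [g.charpoly_natDegree, h])
    simp [e]
  | succ n ih =>
    intro V _ _ _ h f
    have : Nontrivial V := Module.nontrivial_of_finrank_eq_succ h
    obtain ⟨μ, hμ⟩ := Module.End.exists_eigenvalue f
    obtain ⟨v, hv⟩ := hμ.exists_hasEigenvector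
    have h1 : finrank C (Submodule.span C {v}) = 1 := finrank_span_singleton hv.2
    have e : ∀ k : ℕ, ∀ x ∈ Submodule.span C {v}, (f ^ k) x = μ ^ k • x := fun k x hx => by
      obtain ⟨a, rfl⟩ := Submodule.mem_span_singleton.1 hx
      rw [map_smul, hv.pow_apply, smul_comm]
    have hU : ∀ k : ℕ, ∀ x ∈ Submodule.span C {v}, (f ^ k) x ∈ Submodule.span C {v} :=
      fun k x hx => e k x hx ▸ Submodule.smul_mem _ _ hx
    have hU1 : ∀ x ∈ Submodule.span C {v}, f x ∈ Submodule.span C {v} := by simpa using hU 1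
    have h2 := (Submodule.span C {v}).finrank_quotient_add_finrank
    rw [hQUO C V (f ^ i) _ (hU i), hQUO C V f _ hU1,
      roots_mul (mul_ne_zero (LinearMap.charpoly_monic _).ne_zero
        (LinearMap.charpoly_monic _).ne_zero),
      roots_mul (mul_ne_zero (LinearMap.charpoly_monic _).ne_zero
        (LinearMap.charpoly_monic _).ne_zero),
      pow_line h1 _ (μ ^ i) fun x => Subtype.ext (e i x x.2),
      pow_line h1 _ μ fun x => Subtype.ext (by simpa using e 1 x x.2),
      Submodule.mapQ_pow _ hU1 i, ih _ (by omega), Multiset.map_add, Multiset.map_singleton]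

theorem p_POW (hQUO : S_QUO) :
    S_POW := by
  intro C V _ _ _ _ _ f i
  rw [Module.End.trace_eq_sum_roots_charpoly_of_splits (IsAlgClosed.splits _),
    pow_roots hQUO i _ V rfl]

end Pool.Agent.P.MP_7cb106_nt.As.Old

end TPOW

section TSER
set_option autoImplicit false

namespace Pool.Agent.P.MP_7cb106_nt.As.Old

open Pool.Agent.P.MP_7cb106_nt.T

open Matrix Polynomial Module NumberField
open scoped TensorProduct ComplexOrder

lemma ser_cp {F R M N : Type} [Field F] [Ring R] [Algebra F R] [AddCommGroup M] [Module F M]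
    [Module R M] [IsScalarTower F R M] [FiniteDimensional F M] [AddCommGroup N] [Module F N]
    [Module R N] [IsScalarTower F R N] [FiniteDimensional F N] (e : M ≃ₗ[R] N) (a : R) :
    cp F M a = cp F N a := by
  rw [cp, cp, ← LinearEquiv.charpoly_conj (e.restrictScalars F)]
  congr 1
  ext x
  simp [LinearEquiv.conj_apply]

lemma ser_step (hQUO : S_QUO) {F R M : Type} [Field F] [Ring R] [Algebra F R] [AddCommGroup M]
    [Module F M] [Module R M] [IsScalarTower F R M] [FiniteDimensional F M] (U : Submodule R M)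
    (a : R) : cp F M a = cp F U a * cp F (M ⧸ U) a := by
  have h : ∀ x ∈ U.restrictScalars F,
      (Algebra.lsmul F F M a : M →ₗ[F] M) x ∈ U.restrictScalars F :=
    fun x hx => U.smul_mem a hx
  rw [cp, hQUO F M _ _ h]
  congr 1

theorem p_SER (hQUO : S_QUO) :
    S_SER := by
  intro F R M _ _ _ _ _ _ _ _ s h0 h1 a
  have key : ∀ (k : ℕ) (hk : k ≤ s.length), cp F (s ⟨k, Nat.lt_succ_of_le hk⟩) a =
      ∏ i : Fin k, cp F (↥(s (i.castLE hk).succ) ⧸
        (s (i.castLE hk).castSucc).submoduleOf (s (i.castLE hk).succ)) a := by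
    intro k
    induction k with
    | zero =>
      intro hk
      have e : s ⟨0, Nat.lt_succ_of_le hk⟩ = ⊥ := h0
      have : Subsingleton (s ⟨0, Nat.lt_succ_of_le hk⟩) := by rw [e]; infer_instance
      rw [Fin.prod_univ_zero, cp, ← (LinearMap.charpoly_monic _).natDegree_eq_zero,
        LinearMap.charpoly_natDegree, Module.finrank_zero_of_subsingleton]
    | succ k ih =>
      intro hk
      have hle : s ⟨k, by omega⟩ ≤ s ⟨k + 1, Nat.lt_succ_of_le hk⟩ :=
        s.strictMono.monotone (by simp [Fin.le_def])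
      rw [Fin.prod_univ_castSucc, ser_step hQUO ((s ⟨k, by omega⟩).submoduleOf _) a,
        ser_cp (Submodule.submoduleOfEquivOfLe hle) a, ih (by omega)]
      rfl
  have e : s ⟨s.length, Nat.lt_succ_of_le le_rfl⟩ = ⊤ := h1
  rw [← ser_cp ((LinearEquiv.ofEq _ _ e).trans Submodule.topEquiv) a, key _ le_rfl]
  rfl

end Pool.Agent.P.MP_7cb106_nt.As.Old

end TSER

section TIND
set_option autoImplicit false

namespace Pool.Agent.P.MP_7cb106_nt.As.Old

open Pool.Agent.P.MP_7cb106_nt.T

open Matrix Polynomial Module NumberField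
open scoped TensorProduct ComplexOrder

theorem ind_field (F E N : Type) [Field F] [Finite F] [Field E] [Finite E] [Algebra F E]
    [AddCommGroup N] [Module F N] [Module E N] [IsScalarTower F E N] [Finite N] [Nontrivial N] :
    ∃ φ : N →ₗ[E] N, LinearMap.trace F N (φ.restrictScalars F) ≠ 0 := by
  obtain ⟨d, hd⟩ : ∃ d, Algebra.trace F E d ≠ 0 := by
    by_contra h
    push Not at h
    exact Algebra.trace_ne_zero F E (LinearMap.ext h)
  let b := Module.Free.chooseBasis E N
  obtain ⟨i⟩ := b.index_nonempty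
  let α : E →ₗ[E] N := LinearMap.toSpanSingleton E N (d • b i)
  refine ⟨α ∘ₗ b.coord i, ?_⟩
  have e : (α ∘ₗ b.coord i).restrictScalars F =
      α.restrictScalars F ∘ₗ (b.coord i).restrictScalars F := rfl
  rw [e, LinearMap.trace_comp_comm']
  convert hd using 1
  rw [Algebra.trace_apply]
  congr 1
  ext x
  simp [α, mul_comm]

theorem ind_simple (F R N : Type) [Field F] [Finite F] [Ring R] [Algebra F R] [AddCommGroup N]
    [Module F N] [Module R N] [IsScalarTower F R N] [Finite N] [IsSimpleModule R N] :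
    ∃ φ : N →ₗ[F] N, LinearMap.trace F N φ ≠ 0 ∧ ∀ (g : N →ₗ[R] N) (n : N), φ (g n) = g (φ n) := by
  classical
  have : Nontrivial N := IsSimpleModule.nontrivial R N
  have : Finite (Module.End R N) := Finite.of_injective _ DFunLike.coe_injective
  let _ : Field (Module.End R N) := littleWedderburn _
  obtain ⟨φ, hφ⟩ := ind_field F (Module.End R N) N
  exact ⟨φ.restrictScalars F, hφ, fun g n => φ.map_smul g n⟩

theorem p_IND :
    S_IND := by
  intro F R _ _ _ _ D hD hne I hI
  classical
  have hs : ∀ J : D, IsSimpleModule R (R ⧸ J.1) := fun J => (hD J.1 J.2).1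
  have hf : ∀ J : D, Finite (R ⧸ J.1) := fun J =>
    have := (hD J.1 J.2).2
    Module.finite_of_finite F
  let i : D := ⟨I, hI⟩
  obtain ⟨φ, h1, h2⟩ := ind_simple F R (R ⧸ i.1)
  have hz : ∀ (J K : D), J ≠ K → ∀ g : (R ⧸ J.1) →ₗ[R] (R ⧸ K.1), g = 0 := fun J K h g =>
    (LinearMap.bijective_or_eq_zero g).resolve_left fun hb =>
      h (Subtype.ext (hne _ J.2 _ K.2 ⟨LinearEquiv.ofBijective g hb⟩))
  let M := ∀ J : D, R ⧸ J.1
  let c : ∀ (_ : Module.End R M) (J K : D), (R ⧸ J.1) →ₗ[R] (R ⧸ K.1) := fun g J K =>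
    LinearMap.proj K ∘ₗ g ∘ₗ LinearMap.single R (fun J : D => R ⧸ J.1) J
  have hc : ∀ g J K n, c g J K n = g (Pi.single J n) K := fun _ _ _ _ => rfl
  let f : Module.End (Module.End R M) M :=
    { toFun := fun m => Pi.single i (φ (m i))
      map_add' := fun m m' => by rw [← Pi.single_add, ← map_add]; rfl
      map_smul' := fun g m => by
        have e1 : g m i = c g i i (m i) := by
          conv_lhs => rw [← Finset.univ_sum_single m, map_sum, Finset.sum_apply]
          rw [Finset.sum_eq_single i, hc]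
          · intro J _ hJ
            rw [← hc, hz J i hJ (c g J i), LinearMap.zero_apply]
          · simp
        change Pi.single i (φ (g m i)) = g (Pi.single i (φ (m i)))
        funext K
        rw [← hc, e1, h2]
        by_cases hK : K = i
        · subst hK
          rw [Pi.single_eq_same]
        · rw [Pi.single_eq_of_ne hK, hz i K (Ne.symm hK) (c g i K), LinearMap.zero_apply] }
  have : Fintype M := Fintype.ofFinite M
  obtain ⟨x, hx⟩ := jacobson_density f Finset.univ
  have h3 : ∀ (J : D) (n : R ⧸ J.1), x • n =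
      (Pi.single i (φ ((Pi.single J n : M) i)) : M) J := fun J n => by
    have := congrFun (hx (Pi.single J n) (Finset.mem_univ _)) J
    rw [Pi.smul_apply, Pi.single_eq_same] at this
    exact this.symm
  refine ⟨x, ?_, fun J hJ hJI => LinearMap.ext fun n => ?_⟩
  · convert h1 using 2
    refine LinearMap.ext fun n => ?_
    have := h3 i n
    rw [Pi.single_eq_same, Pi.single_eq_same] at this
    exact this
  · have := h3 ⟨J, hJ⟩ n
    rw [Pi.single_eq_of_ne (fun h => hJI (congrArg Subtype.val h))] at this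
    exact this

end Pool.Agent.P.MP_7cb106_nt.As.Old

end TIND

section TBN
set_option autoImplicit false

namespace Pool.Agent.P.MP_7cb106_nt.As.Old

open Pool.Agent.P.MP_7cb106_nt.T

open Matrix Polynomial Module NumberField
open scoped TensorProduct ComplexOrder

lemma bn_core {F R α : Type} [Field F] [Finite F] [AddCommGroup R] [Module F R] {E : Set R}
    (hE : Submodule.span F E = ⊤) (D : Finset α) (P : α → R → F[X]) (t : α → R →ₗ[F] F)
    (hm : ∀ d ∈ D, ∀ x, (P d x).Monic) (ht : ∀ d ∈ D, ∀ x, (P d x).nextCoeff = - t d x)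
    (hi : ∀ d ∈ D, ∃ x, t d x ≠ 0 ∧ ∀ d' ∈ D, d' ≠ d → t d' x = 0) (n : ℕ) :
    ∀ a b : α → ℕ, ∑ d ∈ D, (a d + b d) = n →
      (∀ x ∈ E, ∏ d ∈ D, P d x ^ a d = ∏ d ∈ D, P d x ^ b d) → ∀ d ∈ D, a d = b d := by
  induction n using Nat.strong_induction_on with
  | _ n ih =>
  intro a b hn h
  obtain ⟨p, hp⟩ := CharP.exists F
  have pp : p.Prime := CharP.char_is_prime F p
  have : Fact p.Prime := ⟨pp⟩
  have nc : ∀ (c : α → ℕ) x, (∏ d ∈ D, P d x ^ c d).nextCoeff = -(∑ d ∈ D, (c d : F) • t d) x := by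
    intro c x
    rw [Monic.nextCoeff_prod _ _ fun d hd => (hm d hd x).pow _, LinearMap.sum_apply,
      ← Finset.sum_neg_distrib]
    refine Finset.sum_congr rfl fun d hd => ?_
    rw [(hm d hd x).nextCoeff_pow, ht d hd]; simp
  have tr : ∑ d ∈ D, (a d : F) • t d = ∑ d ∈ D, (b d : F) • t d :=
    LinearMap.ext_on hE fun x hx => neg_injective (by rw [← nc, ← nc, h x hx])
  have md : ∀ d ∈ D, a d ≡ b d [MOD p] := by
    intro d hd
    obtain ⟨x, x0, hx⟩ := hi d hd
    have := LinearMap.congr_fun tr x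
    simp only [LinearMap.sum_apply, LinearMap.smul_apply, smul_eq_mul] at this
    rw [Finset.sum_eq_single_of_mem d hd fun d' h' ne => by rw [hx d' h' ne, mul_zero],
      Finset.sum_eq_single_of_mem d hd fun d' h' ne => by rw [hx d' h' ne, mul_zero]] at this
    exact (CharP.natCast_eq_natCast F p).1 (mul_right_cancel₀ x0 this)
  have ex : ∀ d, ∃ c a' b' : ℕ, d ∈ D → a d = c + a' * p ∧ b d = c + b' * p := by
    intro d
    by_cases hd : d ∈ D
    · refine ⟨a d % p, a d / p, b d / p, fun _ => ⟨(Nat.mod_add_div' _ _).symm, ?_⟩⟩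
      rw [md d hd]; exact (Nat.mod_add_div' _ _).symm
    · exact ⟨0, 0, 0, fun h => absurd h hd⟩
  choose c a' b' e using ex
  have h' : ∀ x ∈ E, ∏ d ∈ D, P d x ^ a' d = ∏ d ∈ D, P d x ^ b' d := by
    intro x hx
    have sp : ∀ u u' : α → ℕ, (∀ d ∈ D, u d = c d + u' d * p) →
        ∏ d ∈ D, P d x ^ u d = (∏ d ∈ D, P d x ^ c d) * (∏ d ∈ D, P d x ^ u' d) ^ p := by
      intro u u' hu
      rw [← Finset.prod_pow, ← Finset.prod_mul_distrib]
      exact Finset.prod_congr rfl fun d hd => by rw [hu d hd, pow_add, pow_mul]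
    have := h x hx
    rw [sp a a' fun d hd => (e d hd).1, sp b b' fun d hd => (e d hd).2] at this
    exact frobenius_inj F[X] p (mul_left_cancel₀
      (monic_prod_of_monic _ _ fun d hd => (hm d hd x).pow _).ne_zero this)
  have le : 2 * ∑ d ∈ D, (a' d + b' d) ≤ n := by
    rw [← hn, Finset.mul_sum]
    refine Finset.sum_le_sum fun d hd => ?_
    rw [(e d hd).1, (e d hd).2]
    nlinarith [pp.two_le]
  intro d hd
  rcases Nat.eq_zero_or_pos n with n0 | n0
  · have := Finset.sum_eq_zero_iff.1 (hn.trans n0) d hd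
    omega
  · rw [(e d hd).1, (e d hd).2, ih _ (by omega) a' b' rfl h' d hd]

lemma bn_cp {F R M N : Type} [Field F] [Ring R] [Algebra F R] [AddCommGroup M] [Module F M]
    [Module R M] [IsScalarTower F R M] [FiniteDimensional F M] [AddCommGroup N] [Module F N]
    [Module R N] [IsScalarTower F R N] [FiniteDimensional F N] (e : M ≃ₗ[R] N) (a : R) :
    cp F M a = cp F N a := by
  rw [cp, cp, ← LinearEquiv.charpoly_conj (e.restrictScalars F)]
  congr 1
  ext x
  simp [LinearEquiv.conj_apply]

lemma bn_next {F R M : Type} [Field F] [Ring R] [Algebra F R] [AddCommGroup M] [Module F M]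
    [Module R M] [IsScalarTower F R M] [FiniteDimensional F M] (a : R) :
    (cp F M a).nextCoeff = - LinearMap.trace F M (Algebra.lsmul F F M a) := by
  classical
  rw [cp, LinearMap.trace_eq_matrix_trace F (Module.finBasis F M),
    Matrix.trace_eq_neg_charpoly_nextCoeff, LinearMap.charpoly_toMatrix, neg_neg]

/-- a chosen left ideal with the same quotient module -/
noncomputable def bnRep {R : Type} [Ring R] (X : Submodule R R) : Submodule R R :=
  Classical.epsilon fun Y : Submodule R R => Nonempty ((R ⧸ Y) ≃ₗ[R] (R ⧸ X))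

lemma bn_rep {R : Type} [Ring R] (X : Submodule R R) :
    Nonempty ((R ⧸ bnRep X) ≃ₗ[R] (R ⧸ X)) :=
  Classical.epsilon_spec (p := fun Y : Submodule R R => Nonempty ((R ⧸ Y) ≃ₗ[R] (R ⧸ X)))
    ⟨X, ⟨LinearEquiv.refl _ _⟩⟩

lemma bn_rep_eq {R : Type} [Ring R] {X Y : Submodule R R} (e : (R ⧸ X) ≃ₗ[R] (R ⧸ Y)) :
    bnRep X = bnRep Y :=
  congrArg Classical.epsilon (funext fun _ => propext
    ⟨fun ⟨f⟩ => ⟨f.trans e⟩, fun ⟨f⟩ => ⟨f.trans e.symm⟩⟩)

open Classical in
/-- the characteristic polynomial on a quotient, one if it has infinite dimension -/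
noncomputable def bnQ (F : Type) {R : Type} [Field F] [Ring R] [Algebra F R] (X : Submodule R R)
    (a : R) : F[X] :=
  if h : FiniteDimensional F (R ⧸ X) then (haveI := h; cp F (R ⧸ X) a) else 1

lemma bn_Q {F R : Type} [Field F] [Ring R] [Algebra F R] (X : Submodule R R)
    [h : FiniteDimensional F (R ⧸ X)] (a : R) : bnQ F X a = cp F (R ⧸ X) a := dif_pos h

lemma bn_fd (F : Type) {R : Type} [Field F] [Ring R] [Algebra F R] (X : Submodule R R)
    [FiniteDimensional F (R ⧸ X)] : FiniteDimensional F (R ⧸ bnRep X) :=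
  ((bn_rep X).some.restrictScalars F).symm.finiteDimensional

open Classical in
lemma bn_prod {F R ι : Type} [Field F] [Ring R] [Algebra F R] [Fintype ι]
    (I : ι → Submodule R R) [∀ i, FiniteDimensional F (R ⧸ I i)] (D : Finset (Submodule R R))
    (hD : ∀ i, bnRep (I i) ∈ D) (m : ℕ) (a : R) : (∏ i, cp F (R ⧸ I i) a) ^ m =
      ∏ d ∈ D, bnQ F d a ^ (m * (Finset.univ.filter fun i => bnRep (I i) = d).card) := by
  have : ∀ i, cp F (R ⧸ I i) a = bnQ F (bnRep (I i)) a := fun i => by
    have := bn_fd F (I i)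
    rw [bn_Q, bn_cp (bn_rep (I i)).some]
  simp only [this]
  rw [← Finset.prod_fiberwise_of_maps_to' (fun i _ => hD i) fun d => bnQ F d a, ← Finset.prod_pow]
  exact Finset.prod_congr rfl fun d _ => by rw [Finset.prod_const, ← pow_mul, mul_comm]

open Classical in
lemma bn_card {R ι W : Type} [Ring R] [Fintype ι] [AddCommGroup W] [Module R W]
    (I : ι → Submodule R R) {X : Submodule R R} (e : (R ⧸ X) ≃ₗ[R] W) :
    Nat.card {i // Nonempty ((R ⧸ I i) ≃ₗ[R] W)} =
      (Finset.univ.filter fun i => bnRep (I i) = bnRep X).card := by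
  rw [Nat.card_eq_fintype_card, Fintype.card_subtype]
  refine congrArg Finset.card (Finset.filter_congr fun i _ => ?_)
  refine ⟨fun ⟨f⟩ => bn_rep_eq (f.trans e.symm), fun h => ?_⟩
  obtain ⟨f⟩ := bn_rep (I i)
  obtain ⟨g⟩ := bn_rep X
  rw [h] at f
  exact ⟨f.symm.trans (g.trans e)⟩

theorem p_BN (hIND : S_IND) :
    S_BN := by
  classical
  intro F R _ _ _ _ E hE ι κ _ _ I J _ _ m m' sI sJ h W _ _
  set D : Finset (Submodule R R) := Finset.univ.image (fun i => bnRep (I i)) ∪
    Finset.univ.image fun k => bnRep (J k) with hD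
  have mI : ∀ i, bnRep (I i) ∈ D := fun i =>
    Finset.mem_union_left _ (Finset.mem_image_of_mem _ (Finset.mem_univ i))
  have mJ : ∀ k, bnRep (J k) ∈ D := fun k =>
    Finset.mem_union_right _ (Finset.mem_image_of_mem _ (Finset.mem_univ k))
  have st : ∀ d ∈ D, ∃ X, d = bnRep X ∧ IsSimpleModule R (R ⧸ d) ∧ FiniteDimensional F (R ⧸ d) := by
    intro d hd
    rcases Finset.mem_union.1 hd with hd | hd <;> obtain ⟨i, -, rfl⟩ := Finset.mem_image.1 hd
    · have := sI i
      exact ⟨_, rfl, IsSimpleModule.congr (bn_rep _).some, bn_fd F _⟩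
    · have := sJ i
      exact ⟨_, rfl, IsSimpleModule.congr (bn_rep _).some, bn_fd F _⟩
  have ind := hIND F R D (fun d hd => (st d hd).choose_spec.2) (by
    rintro d hd d' hd' ⟨e⟩
    obtain ⟨X, rfl, -⟩ := st d hd
    obtain ⟨Y, rfl, -⟩ := st d' hd'
    exact bn_rep_eq ((bn_rep X).some.symm.trans (e.trans (bn_rep Y).some)))
  have key := bn_core hE D (fun d a => bnQ F d a)
    (fun d => LinearMap.trace F (R ⧸ d) ∘ₗ (Algebra.lsmul F F (R ⧸ d)).toLinearMap)
    (fun d hd x => by
      have := (st d hd).choose_spec.2.2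
      rw [bn_Q]; exact LinearMap.charpoly_monic _)
    (fun d hd x => by
      have := (st d hd).choose_spec.2.2
      rw [bn_Q, bn_next]; rfl)
    (fun d hd => by
      obtain ⟨x, x0, hx⟩ := ind d hd
      refine ⟨x, x0, fun d' h' ne => ?_⟩
      change LinearMap.trace F (R ⧸ d') (Algebra.lsmul F F (R ⧸ d') x) = 0
      rw [hx d' h' ne, map_zero]) _
    (fun d => m' * (Finset.univ.filter fun i => bnRep (I i) = d).card)
    (fun d => m * (Finset.univ.filter fun k => bnRep (J k) = d).card) rfl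
    fun a ha => by rw [← bn_prod I D mI, ← bn_prod J D mJ, h a ha]
  by_cases c : ∃ X, bnRep X ∈ D ∧ Nonempty ((R ⧸ X) ≃ₗ[R] W)
  · obtain ⟨X, hX, ⟨e⟩⟩ := c
    rw [bn_card I e, bn_card J e]
    exact key _ hX
  · have : IsEmpty {i // Nonempty ((R ⧸ I i) ≃ₗ[R] W)} := ⟨fun i => c ⟨_, mI i.1, i.2⟩⟩
    have : IsEmpty {k // Nonempty ((R ⧸ J k) ≃ₗ[R] W)} := ⟨fun k => c ⟨_, mJ k.1, k.2⟩⟩
    simp

end Pool.Agent.P.MP_7cb106_nt.As.Old

end TBN

section TJH
set_option autoImplicit false

namespace Pool.Agent.P.MP_7cb106_nt.As.Old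

open Pool.Agent.P.MP_7cb106_nt.T

open Matrix Polynomial Module NumberField
open scoped TensorProduct ComplexOrder

lemma jh_cp (F : Type) {R M M' : Type} [Field F] [Ring R] [Algebra F R] [AddCommGroup M]
    [Module F M] [Module R M] [IsScalarTower F R M] [FiniteDimensional F M] [AddCommGroup M']
    [Module F M'] [Module R M'] [IsScalarTower F R M'] [FiniteDimensional F M']
    (e : M ≃ₗ[R] M') (a : R) : cp F M a = cp F M' a := by
  unfold cp
  rw [← (e.restrictScalars F).charpoly_conj]
  congr 1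
  ext x
  simp [LinearEquiv.conj_apply]

lemma jh_fac (hSER : S_SER) (F : Type) {R M : Type} [Field F] [Ring R] [Algebra F R]
    [AddCommGroup M] [Module F M] [Module R M] [IsScalarTower F R M] [FiniteDimensional F M]
    (s : CompositionSeries (Submodule R M)) (h0 : s.head = ⊥) (h1 : s.last = ⊤) :
    ∃ (I : Fin s.length → Submodule R R) (_ : ∀ i, FiniteDimensional F (R ⧸ I i)),
      (∀ i, IsSimpleModule R (R ⧸ I i)) ∧ (∀ a : R, cp F M a = ∏ i, cp F (R ⧸ I i) a) ∧
      ∀ (W : Type) [AddCommGroup W] [Module R W],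
        factorCount s W = Nat.card {i // Nonempty ((R ⧸ I i) ≃ₗ[R] W)} := by
  have hs : ∀ i : Fin s.length,
      IsSimpleModule R (↥(s i.succ) ⧸ (s i.castSucc).submoduleOf (s i.succ)) := fun i =>
    (covBy_iff_quot_is_simple (CovBy.le (s.step i))).1 (s.step i)
  choose I _ e using fun i => isSimpleModule_iff_quot_maximal.1 (hs i)
  have e' := fun i => (e i).some
  have fd : ∀ i, FiniteDimensional F (R ⧸ (I i : Submodule R R)) := fun i =>
    ((e' i).restrictScalars F).finiteDimensional
  refine ⟨I, fd, fun i => ?_, fun a => ?_, fun W _ _ => ?_⟩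
  · have := hs i
    exact IsSimpleModule.congr (e' i).symm
  · rw [hSER F R M s h0 h1 a]
    exact Finset.prod_congr rfl fun i _ => jh_cp F (e' i) a
  · exact Nat.card_congr (Equiv.subtypeEquivRight fun i =>
      ⟨fun ⟨f⟩ => ⟨(e' i).symm.trans f⟩, fun ⟨f⟩ => ⟨(e' i).trans f⟩⟩)

lemma jh_rep {F H V : Type} [Field F] [Group H] [AddCommGroup V] [Module F V]
    [FiniteDimensional F V] (ρ : Representation F H V) (g : H) :
    cp F ρ.asModule (MonoidAlgebra.single g (1 : F)) = (ρ g).charpoly := by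
  unfold cp
  rw [← ρ.asModuleEquiv.charpoly_conj]
  congr 1
  ext x
  simp [LinearEquiv.conj_apply]
  rfl

theorem p_JH (hSER : S_SER) (hBN : S_BN) :
    S_JH := by
  intro F H V V' W _ _ _ _ _ _ _ _ _ _ _ ρ ρ' a m m' h N N' ⟨s, s0, s1, hs⟩ ⟨t, t0, t1, ht⟩
  obtain ⟨I, fI, I1, I2, I3⟩ := jh_fac hSER F s s0 s1
  obtain ⟨J, fJ, J1, J2, J3⟩ := jh_fac hSER F t t0 t1
  rw [← hs, ← ht, I3, J3]
  refine hBN F (MonoidAlgebra F H) (Set.range fun g : H => MonoidAlgebra.single g (1 : F)) ?_
    _ _ I J m m' I1 J1 ?_ _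
  · refine Submodule.eq_top_iff'.2 fun x => ?_
    induction x using MonoidAlgebra.induction_on with
    | of g => exact Submodule.subset_span ⟨g, rfl⟩
    | add x y hx hy => exact add_mem hx hy
    | smul r x hx => exact Submodule.smul_mem _ r hx
  · rintro _ ⟨g, rfl⟩
    rw [← I2, ← J2, jh_rep, jh_rep, h g]

end Pool.Agent.P.MP_7cb106_nt.As.Old

end TJH

namespace Pool.Agent.P.MP_7cb106_nt.As.Old

open Pool.Agent.P.MP_7cb106_nt.T

theorem all_QUO : S_QUO := p_QUO
theorem all_POW : S_POW := p_POW all_QUO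
theorem all_SER : S_SER := p_SER all_QUO
theorem all_BN : S_BN := p_BN p_IND
theorem all_JH : S_JH := p_JH all_SER all_BN

end Pool.Agent.P.MP_7cb106_nt.As.Old
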