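import Pool.Agent.P.MP_7cb106_nt.As.Idem

/-! Congruence subgroups over a finite chain ring. -/

set_option autoImplicit false
set_option linter.unusedSectionVars false

namespace Pool.Agent.P.MP_7cb106_nt.As

open Module Finset LinearMap
open scoped Classical

variable {R : Type} [CommRing R] {ι : Type} [Fintype ι] [DecidableEq ι] {π : R}

/-- `π` is nilpotent and divides all non-units -/
structure Chn (π : R) : Prop where
  nil : IsNilpotent π
  dvd : ∀ x : R, ¬ IsUnit x → π ∣ x

/-- the element `1 + π ^ l Z` -/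
noncomputable def el (π : R) (l : ℕ) (Z : Matrix ι ι R) : GL ι R :=
  if h : IsUnit (1 + π ^ l • Z) then h.unit else 1

theorem el_val (hπ : IsNilpotent π) {l : ℕ} (hl : 1 ≤ l) (Z : Matrix ι ι R) :
    (el π l Z).val = 1 + π ^ l • Z := by
  have h : IsUnit (1 + π ^ l • Z) := by
    obtain ⟨k, hk⟩ := hπ.pow_of_pos (n := l) (by omega)
    exact IsNilpotent.isUnit_one_add ⟨k, by rw [smul_pow, hk, zero_smul]⟩
  rw [el, dif_pos h, IsUnit.unit_spec]

/-- the size of the quotient by `π ^ t` -/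
noncomputable def ww (π : R) (t : ℕ) : ℕ := Nat.card (R ⧸ Ideal.span {π ^ t})

instance finQ [Finite R] (I : Ideal R) : Finite (R ⧸ I) :=
  Finite.of_surjective _ Ideal.Quotient.mk_surjective

theorem ww_pos [Finite R] (t : ℕ) : 1 ≤ ww π t := Nat.card_pos

theorem out_spec (x z : R) :
    ∃ y, z = (Ideal.Quotient.mk (Ideal.span {x}) z).out + x * y := by
  have h := Ideal.Quotient.mk_out (Ideal.Quotient.mk (Ideal.span {x}) z)
  obtain ⟨y, hy⟩ := Ideal.mem_span_singleton.1 (Ideal.Quotient.eq.1 h.symm)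
  exact ⟨y, by rw [← hy]; ring⟩

theorem ww_add [Finite R] (a b : ℕ) : ww π (a + b) ≤ ww π a * ww π b := by
  unfold ww
  rw [← Nat.card_prod]
  refine Nat.card_le_card_of_surjective (fun x : (R ⧸ Ideal.span {π ^ a}) × (R ⧸ Ideal.span {π ^ b}) =>
    Ideal.Quotient.mk _ (x.1.out + π ^ a * x.2.out)) fun z => ?_
  obtain ⟨z, rfl⟩ := Ideal.Quotient.mk_surjective z
  obtain ⟨y, hy⟩ := out_spec (π ^ a) z
  obtain ⟨y', hy'⟩ := out_spec (π ^ b) y
  refine ⟨(Ideal.Quotient.mk _ z, Ideal.Quotient.mk _ y), Ideal.Quotient.eq.2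
    (Ideal.mem_span_singleton.2 ⟨-y', ?_⟩)⟩
  linear_combination (-1 : R) * hy - π ^ a * hy'

theorem ww_mul [Finite R] (a k : ℕ) : ww π (k * a) ≤ ww π a ^ k := by
  induction k with
  | zero =>
    rw [zero_mul, pow_zero, ww, pow_zero, Ideal.span_singleton_one]
    exact Finite.card_le_one_iff_subsingleton.2 inferInstance
  | succ k ih => rw [add_mul, one_mul, pow_succ]; exact (ww_add _ _).trans (Nat.mul_le_mul_right _ ih)

theorem Chn.val (h : Chn π) {c : R} {u : ℕ} (hc : ¬ π ^ u ∣ c) :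
    ∃ t, t < u ∧ ∃ e : Rˣ, c = π ^ t * e := by
  induction u with
  | zero => exact absurd (by simp) hc
  | succ u ih =>
    by_cases h1 : π ^ u ∣ c
    · obtain ⟨d, rfl⟩ := h1
      by_cases h2 : IsUnit d
      · exact ⟨u, by omega, h2.unit, rfl⟩
      · exact absurd (by rw [pow_succ]; exact mul_dvd_mul_left _ (h.dvd d h2)) hc
    · obtain ⟨t, a, b⟩ := ih h1
      exact ⟨t, by omega, b⟩

variable {V : Type} [AddCommGroup V] [Module ℂ V] [FiniteDimensional ℂ V]
  {σ : Representation ℂ (GL ι R) V}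

/-- trivial on the congruence subgroup of level `π ^ i` -/
def Triv (π : R) (σ : Representation ℂ (GL ι R) V) (i : ℕ) : Prop :=
  ∀ (g : GL ι R) (Z : Matrix ι ι R), g.val = 1 + π ^ i • Z → σ g = 1

theorem Triv.congr {i : ℕ} (h : Triv π σ i) {g g' : GL ι R} (Z : Matrix ι ι R)
    (e : g.val = g'.val + π ^ i • Z) : σ g = σ g' := by
  have := h (g'⁻¹ * g) ((g'⁻¹).val * Z) (by
    rw [Units.val_mul, e, mul_add, Units.inv_mul, mul_smul_comm])
  rw [← mul_inv_cancel_left g' g, map_mul, this, mul_one]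

theorem Triv.mono {i i' : ℕ} (h : Triv π σ i) (hi : i ≤ i') : Triv π σ i' := fun g Z e =>
  h g (π ^ (i' - i) • Z) (by rw [e, smul_smul, ← pow_add, Nat.add_sub_cancel' hi])

theorem stable_top {G : Type} [Group G] {F W : Type} [Field F] [AddCommGroup W] [Module F W]
    {ρ : Representation F G W} (hρ : ρ.IsIrreducible) (U : Submodule F W)
    (hU : ∀ g v, v ∈ U → ρ g v ∈ U) (h : U ≠ ⊥) : U = ⊤ := by
  rcases hρ.eq_bot_or_eq_top ⟨U, fun g v hv => hU g v hv⟩ with e | e
  · exact absurd (congrArg Subrepresentation.toSubmodule e) h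
  · exact congrArg Subrepresentation.toSubmodule e

theorem Triv.dim [Finite R] {i : ℕ} (h : Triv π σ i) (hσ : σ.IsIrreducible) :
    finrank ℂ V ≤ ww π i ^ (Fintype.card ι * Fintype.card ι) := by
  rcases subsingleton_or_nontrivial V with _ | _
  · rw [finrank_zero_of_subsingleton]; exact Nat.zero_le _
  obtain ⟨v, hv⟩ := exists_ne (0 : V)
  let f : GL ι R → Matrix ι ι (R ⧸ Ideal.span {π ^ i}) := fun g => g.val.map (Ideal.Quotient.mk _)
  have hf : ∀ g g', f g = f g' → σ g = σ g' := by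
    intro g g' e
    have : ∀ a b, ∃ z, g.val a b - g'.val a b = π ^ i * z := fun a b =>
      Ideal.mem_span_singleton.1 (Ideal.Quotient.eq.1 (congrFun (congrFun e a) b))
    choose Z hZ using this
    refine h.congr (Matrix.of Z) ?_
    ext a b
    simp only [Matrix.add_apply, Matrix.smul_apply, Matrix.of_apply, smul_eq_mul, ← hZ]
    ring
  let φ : Matrix ι ι (R ⧸ Ideal.span {π ^ i}) → V := fun A => σ (Function.invFun f A) v
  have hφ : ∀ g, φ (f g) = σ g v := fun g => by
    simp only [φ, hf _ _ (Function.invFun_eq ⟨g, rfl⟩)]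
  have : Fintype (R ⧸ Ideal.span {π ^ i}) := Fintype.ofFinite _
  have htop : Submodule.span ℂ (Set.range φ) = ⊤ := by
    refine stable_top hσ _ (fun g x hx => ?_) fun e => hv ?_
    · induction hx using Submodule.span_induction with
      | mem x hx =>
        obtain ⟨A, rfl⟩ := hx
        refine Submodule.subset_span ⟨f (g * Function.invFun f A), ?_⟩
        rw [hφ, map_mul]; rfl
      | zero => rw [map_zero]; exact zero_mem _
      | add x y _ _ a b => rw [map_add]; exact add_mem a b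
      | smul c x _ a => rw [map_smul]; exact Submodule.smul_mem _ _ a
    · have : φ (f 1) ∈ Submodule.span ℂ (Set.range φ) := Submodule.subset_span ⟨_, rfl⟩
      rwa [e, hφ, map_one, Submodule.mem_bot] at this
  refine (finrank_le_of_span_eq_top htop).trans_eq ?_
  rw [ww, Nat.card_eq_fintype_card, pow_mul, ← Fintype.card_fun, ← Fintype.card_fun]
  rfl

/-- conjugation -/
def cj (g : GL ι R) : Matrix ι ι R ≃+ Matrix ι ι R where
  toFun Z := g.val * Z * (g⁻¹).val
  invFun Z := (g⁻¹).val * Z * g.val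
  left_inv Z := by simp [mul_assoc]
  right_inv Z := by simp [mul_assoc]
  map_add' Z Z' := by rw [mul_add, add_mul]

theorem cj_apply (g : GL ι R) (Z : Matrix ι ι R) : cj g Z = g.val * Z * (g⁻¹).val := rfl

theorem cj_smul (g : GL ι R) (c : R) (Z : Matrix ι ι R) : cj g (c • Z) = c • cj g Z := by
  simp only [cj_apply, mul_smul_comm, smul_mul_assoc]

theorem cj_mul (g : GL ι R) (Y Z : Matrix ι ι R) : cj g (Y * Z) = cj g Y * cj g Z := by
  simp only [cj_apply, mul_assoc, Units.inv_mul_cancel_left]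

theorem cj_inv (g : GL ι R) (Z : Matrix ι ι R) : cj g (cj g⁻¹ Z) = Z := by
  simp only [cj_apply, inv_inv, mul_assoc, Units.mul_inv_cancel_left, Units.mul_inv, mul_one]

theorem mul_el (hπ : IsNilpotent π) {l : ℕ} (hl : 1 ≤ l) (g : GL ι R) (Z : Matrix ι ι R) :
    g * el π l Z = el π l (cj g Z) * g := by
  ext1
  rw [Units.val_mul, Units.val_mul, el_val hπ hl, el_val hπ hl, mul_add, add_mul, mul_one, one_mul,
    mul_smul_comm, smul_mul_assoc, cj_apply, Units.inv_mul_cancel_right]

theorem Triv.act {i l : ℕ} (h : Triv π σ i) (hπ : IsNilpotent π) (hl : 1 ≤ l) (hi : i ≤ 2 * l) :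
    Act fun Z : Matrix ι ι R => σ (el π l Z) := by
  refine ⟨h _ 0 (by rw [el_val hπ hl, smul_zero, smul_zero]), fun Y Z => ?_⟩
  rw [← map_mul]
  refine (h.congr (π ^ (2 * l - i) • (Y * Z)) ?_).symm
  rw [Units.val_mul, el_val hπ hl, el_val hπ hl, el_val hπ hl, smul_smul, ← pow_add,
    Nat.add_sub_cancel' hi, two_mul, pow_add, ← smul_smul, add_mul, mul_add, mul_add, one_mul,
    one_mul, mul_one, smul_mul_assoc, mul_smul_comm, smul_add]
  abel

/-- fixed part and moving part -/
theorem split {s : GL ι R} {N : ℕ} (hs : s ^ N = 1) (hN : IsUnit (N : R)) (A : Matrix ι ι R) :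
    ∃ A₀ A₁, cj s A₀ = A₀ ∧ A = A₀ + (cj s A₁ - A₁) := by
  let c : Module.End R (Matrix ι ι R) :=
    { toFun := cj s, map_add' := map_add _, map_smul' := cj_smul s }
  have hc : ∀ k : ℕ, ∀ Z, (c ^ k) Z = cj (s ^ k) Z := by
    intro k
    induction k with
    | zero => intro Z; simp [cj_apply]
    | succ k ih =>
      intro Z
      rw [pow_succ', Module.End.mul_apply, ih, pow_succ']
      simp only [c, cj_apply, LinearMap.coe_mk, AddHom.coe_mk, mul_inv_rev, Units.val_mul, mul_assoc]
  have hcN : c ^ N = 1 := LinearMap.ext fun Z => by rw [hc, hs]; simp [cj_apply]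
  obtain ⟨u, hu⟩ := hN
  have e1 : (c - 1) * ∑ k ∈ range N, c ^ k = 0 := by rw [mul_geom_sum, hcN, sub_self]
  have e2 : (c - 1) * ∑ k ∈ range N, ∑ t ∈ range k, c ^ t = ∑ k ∈ range N, c ^ k - (N : R) • 1 := by
    rw [mul_sum]
    simp only [mul_geom_sum, sum_sub_distrib, sum_const, card_range, Nat.cast_smul_eq_nsmul]
  refine ⟨(u⁻¹).val • (∑ k ∈ range N, c ^ k) A,
    -((u⁻¹).val • (∑ k ∈ range N, ∑ t ∈ range k, c ^ t) A), ?_, ?_⟩
  · have := congrArg (fun f : Module.End R _ => f A) e1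
    simp only [Module.End.mul_apply, LinearMap.sub_apply, Module.End.one_apply,
      LinearMap.zero_apply, sub_eq_zero] at this
    rw [cj_smul]
    exact congrArg _ this
  · have := congrArg (fun f : Module.End R _ => (u⁻¹).val • f A) e2
    simp only [Module.End.mul_apply, LinearMap.sub_apply, Module.End.one_apply, smul_sub,
      LinearMap.smul_apply, smul_smul, ← hu, Units.inv_mul, one_smul] at this
    rw [map_neg, cj_smul]
    change _ = _ + (-((u⁻¹).val • c _) - _)
    rw [sub_neg_eq_add, neg_add_eq_sub, ← neg_sub, this]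
    abel

end Pool.Agent.P.MP_7cb106_nt.As
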