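import Pool.Agent.P.MP_7cb106_nt.As.Bound
import Pool.Agent.P.MP_7cb106_nt.As.Iface

/-! The character bound for the smooth factor. -/

set_option autoImplicit false
set_option linter.unusedSectionVars false

namespace Pool.Agent.P.MP_7cb106_nt.As

open Module IsLocalRing
open LinearMap (trace)
open Matrix.GeneralLinearGroup (map)

theorem pow_form {D q w k : ℕ} {x : ℝ} (hk : 0 < k) (hw : 1 ≤ w) (h1 : D ≤ (q * w) ^ k)
    (h2 : w * x ≤ D) : x ≤ q * (D : ℝ) ^ (1 - 1 / (k : ℝ)) := by
  have hw' : (0 : ℝ) < w := Nat.cast_pos.2 hw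
  have e1 : (D : ℝ) ^ (1 / (k : ℝ)) ≤ q * w := by
    have : (D : ℝ) ≤ ((q : ℝ) * w) ^ k := by exact_mod_cast h1
    refine (Real.rpow_le_rpow (Nat.cast_nonneg _) this (by positivity)).trans_eq ?_
    rw [one_div, Real.pow_rpow_inv_natCast (by positivity) hk.ne']
  refine le_of_mul_le_mul_left (h2.trans ?_) hw'
  calc (D : ℝ) = (D : ℝ) ^ (1 / (k : ℝ)) * (D : ℝ) ^ (1 - 1 / (k : ℝ)) := by
        rw [← Real.rpow_add' (Nat.cast_nonneg _) (by simp), add_sub_cancel, Real.rpow_one]
    _ ≤ q * w * (D : ℝ) ^ (1 - 1 / (k : ℝ)) := mul_le_mul_of_nonneg_right e1 (by positivity)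
    _ = _ := by ring

theorem smooth_bound {A V : Type} [CommRing A] [IsDomain A] [IsDiscreteValuationRing A]
    [Finite (ResidueField A)] [AddCommGroup V] [Module ℂ V] [FiniteDimensional ℂ V] {n N : ℕ}
    (hn : 0 < n) (hN0 : 0 < N) (hN : IsUnit (N : A)) (σ : Representation ℂ (GL (Fin n) A) V)
    (hσ : σ.IsIrreducible) (hl : Level σ) {t : GL (Fin n) A} (ht : t ^ N = 1) (hs : ¬ Scal t) :
    ‖trace ℂ V (σ t)‖ ≤
      Nat.card (ResidueField A) * (finrank ℂ V : ℝ) ^ (1 - 1 / (7 * (n : ℝ) ^ 2)) := by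
  obtain ⟨m, hm⟩ := hl
  obtain ⟨ϖ, hϖ⟩ := IsDiscreteValuationRing.exists_irreducible A
  let I : Ideal A := maximalIdeal A ^ (m + 1)
  have hI : I ≤ maximalIdeal A := Ideal.pow_le_self m.succ_ne_zero
  have : Finite (A ⧸ maximalIdeal A) := ‹Finite (ResidueField A)›
  have : Finite (A ⧸ I) := Ideal.finite_quotient_pow (IsNoetherian.noetherian _) _
  have : Nontrivial (A ⧸ I) := Ideal.Quotient.nontrivial_iff.2 fun e =>
    (maximalIdeal.isMaximal A).ne_top (top_le_iff.1 (e ▸ hI))
  let φ := Ideal.Quotient.mk I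
  have hφ : Function.Surjective φ := Ideal.Quotient.mk_surjective
  have : IsLocalHom φ := IsLocalHom.of_surjective φ hφ
  have hd : ∀ x : A, x ∈ maximalIdeal A ↔ ϖ ∣ x := fun x => by
    rw [hϖ.maximalIdeal_eq, Ideal.mem_span_singleton]
  have h0 : φ ϖ ^ (m + 1) = 0 := by
    rw [← map_pow]
    exact Ideal.Quotient.eq_zero_iff_mem.2 (Ideal.pow_mem_pow ((hd _).2 dvd_rfl) _)
  have hπ : Chn (φ ϖ) := ⟨⟨_, h0⟩, fun x hx => by
    obtain ⟨x, rfl⟩ := hφ x
    exact map_dvd φ ((hd x).1 fun e => hx (e.map φ))⟩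
  have hf : Function.Surjective (map (n := Fin n) φ) := fun g => by
    let B : Matrix (Fin n) (Fin n) A := Matrix.of fun a b => Function.surjInv hφ (g.val a b)
    have h1 : φ.mapMatrix B = g.val := by
      ext a b
      simp [B, Function.surjInv_eq hφ]
    have h2 : IsUnit B := (Matrix.isUnit_iff_isUnit_det _).2 <| (isUnit_map_iff φ _).1 <| by
      rw [RingHom.map_det, h1]
      exact (Matrix.isUnit_iff_isUnit_det _).1 g.isUnit
    exact ⟨h2.unit, Units.ext h1⟩
  have hk : ∀ x, map φ x = 1 → σ x = 1 := fun x hx => hm x fun a b => by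
    refine Ideal.pow_le_pow_right m.le_succ (Ideal.Quotient.eq_zero_iff_mem.1 ?_)
    have := congrArg (fun g : GL (Fin n) (A ⧸ I) => (g.val - 1) a b) hx
    simpa [Matrix.one_apply, apply_ite φ] using this
  obtain ⟨σ', rfl⟩ : ∃ σ' : Representation ℂ (GL (Fin n) (A ⧸ I)) V, σ = σ'.comp (map φ) :=
    ⟨(Units.coeHom _).comp ((map φ).liftOfSurjective hf ⟨σ.toHomUnits, fun x hx =>
      Units.ext (hk x hx)⟩), MonoidHom.ext fun x => by simp⟩
  have hσ' : σ'.IsIrreducible := by
    let e : Subrepresentation σ' ≃o Subrepresentation (σ'.comp (map φ)) :=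
      { toFun := fun X => ⟨X.toSubmodule, fun g v hv => X.apply_mem_toSubmodule _ hv⟩
        invFun := fun X => ⟨X.toSubmodule, fun g v hv => by
          obtain ⟨g, rfl⟩ := hf g
          exact X.apply_mem_toSubmodule g hv⟩
        left_inv := fun _ => rfl
        right_inv := fun _ => rfl
        map_rel_iff' := Iff.rfl }
    exact e.isSimpleOrder
  have hns : Nsc (map φ t) := by
    by_contra hc
    refine hs ?_
    have : red A n t ∈ (Matrix.GeneralLinearGroup.scalar (Fin n)).range := by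
      rw [← Matrix.GeneralLinearGroup.center_eq_range_scalar,
        Matrix.GeneralLinearGroup.mem_center_iff_val_mem_range_scalar,
        Matrix.mem_range_scalar_iff_commute_single']
      intro a b
      refine (sub_eq_zero.1 (Matrix.ext fun c d => ?_)).symm
      have e : ∀ {B : Type} [CommRing B] (ψ : A →+* B), ((map ψ t).val * Matrix.single a b (1 : B) -
          Matrix.single a b (1 : B) * (map ψ t).val) c d =
          ψ ((t.val * Matrix.single a b (1 : A) - Matrix.single a b (1 : A) * t.val) c d) := by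
        intro B _ ψ
        have : Matrix.single a b (1 : B) = ψ.mapMatrix (Matrix.single a b 1) := by simp
        rw [this, show (map ψ t).val = ψ.mapMatrix t.val from rfl, ← map_mul, ← map_mul, ← map_sub]
        rfl
      rw [e, Matrix.zero_apply, residue_eq_zero_iff]
      exact fun u => hc ⟨Matrix.single a b 1, c, d, by rw [e]; exact u.map φ⟩
    exact this.imp fun z hz => hz.symm
  obtain ⟨w, a, b, c⟩ := char_bound (V := V) hπ (s := map φ t) hN0 (by rw [← map_pow, ht, map_one])
    (by simpa using hN.map φ) hns (m + 1) σ' hσ' fun g Z e => by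
      rw [h0, zero_smul, add_zero] at e
      rw [show g = 1 from Units.ext e, map_one]
  have hq : ww (φ ϖ) 1 ≤ Nat.card (ResidueField A) :=
    Nat.card_le_card_of_surjective (Ideal.Quotient.lift (maximalIdeal A)
      ((Ideal.Quotient.mk (Ideal.span {φ ϖ ^ 1})).comp φ) fun x hx =>
        Ideal.Quotient.eq_zero_iff_mem.2 (Ideal.mem_span_singleton.2 (by
          rw [pow_one]; exact map_dvd φ ((hd x).1 hx))))
      (Ideal.Quotient.lift_surjective_of_surjective _ _ (Ideal.Quotient.mk_surjective.comp hφ))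
  have := pow_form (by rw [Fintype.card_fin]; positivity) a
    (b.trans (Nat.pow_le_pow_left (Nat.mul_le_mul_right w hq) _)) c
  rw [Fintype.card_fin, Nat.cast_mul, Nat.cast_mul, ← sq, Nat.cast_ofNat] at this
  exact this

end Pool.Agent.P.MP_7cb106_nt.As
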